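import Pool.Agent.X91.SA.Newt
import Pool.Agent.H9R2.TF.KOps

/-!
# The Thomas-Fermi atom confined to a ball
-/

set_option autoImplicit false

open MeasureTheory Set Filter Topology Metric
open scoped RealInnerProductSpace

namespace Pool.Agent.X91.SA

open Pool.Agent.Helper557.TFP
open Pool.Agent.H9R2.TF (be be_mono be_nonneg be_meas be_pow53 Bf kop_full exists_EL pot_pos nice_sub')

lemma I52 (L : ℝ) : IntegrableOn (fun x : E3 => ‖x‖ ^ (-(5/2) : ℝ)) (ball 0 L) := by
  have h1 := TF_nice_modulus_int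
  have h2 : IntegrableOn (fun x : E3 => ‖x‖ ^ (-(5/2) : ℝ)) (closedBall 0 L \ ball 0 1) := by
    apply ContinuousOn.integrableOn_compact
    · exact (isCompact_closedBall 0 L).diff isOpen_ball
    · intro x hx
      have hx0 : ‖x‖ ≠ 0 := by
        intro h
        apply hx.2
        simp [h]
      exact (continuous_norm.continuousAt.rpow_const (Or.inl hx0)).continuousWithinAt
  refine (h1.union h2).mono_set ?_
  intro x hx
  by_cases h : x ∈ ball (0:E3) 1
  · exact Or.inl h
  · exact Or.inr ⟨ball_subset_closedBall hx, h⟩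

noncomputable def rh (n L : ℝ) (x : E3) : ℝ := (ball (0:E3) L).indicator (fun x => be (n / ‖x‖)) x

lemma be_of_nonneg {u : ℝ} (h : 0 ≤ u) : be u = u ^ (3/2 : ℝ) := by
  unfold Pool.Agent.H9R2.TF.be; rw [max_eq_left h]

lemma hm_meas (n : ℝ) : Measurable (fun x : E3 => n / ‖x‖) := measurable_const.div measurable_norm

lemma rh_meas (n L : ℝ) : Measurable (rh n L) :=
  (be_meas.comp (hm_meas n)).indicator measurableSet_ball

lemma rh_nonneg (n L : ℝ) (x : E3) : 0 ≤ rh n L x := by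
  unfold rh; exact indicator_nonneg (fun _ _ => be_nonneg _) _

lemma J52 {n : ℝ} (hn : 0 ≤ n) (L : ℝ) :
    Integrable ((ball (0:E3) L).indicator (fun x => (n / ‖x‖) ^ (5/2 : ℝ))) := by
  rw [integrable_indicator_iff measurableSet_ball]
  have h : IntegrableOn (fun x : E3 => n ^ (5/2 : ℝ) * ‖x‖ ^ (-(5/2) : ℝ)) (ball 0 L) :=
    (I52 L).const_mul (n ^ (5/2 : ℝ))
  refine IntegrableOn.congr_fun h ?_ measurableSet_ball
  intro x _
  show n ^ (5/2 : ℝ) * ‖x‖ ^ (-(5/2) : ℝ) = (n / ‖x‖) ^ (5/2 : ℝ)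
  rw [Real.div_rpow hn (norm_nonneg _), Real.rpow_neg (norm_nonneg _)]
  rfl

lemma rh_pow {n : ℝ} (hn : 0 ≤ n) (L : ℝ) (x : E3) :
    rh n L x ^ (5/3 : ℝ) = (ball (0:E3) L).indicator (fun x => (n / ‖x‖) ^ (5/2 : ℝ)) x := by
  unfold rh
  by_cases h : x ∈ ball (0:E3) L
  · rw [indicator_of_mem h, indicator_of_mem h, be_of_nonneg (by positivity), ← Real.rpow_mul (by positivity)]
    norm_num
  · rw [indicator_of_notMem h, indicator_of_notMem h, Real.zero_rpow (by norm_num)]

lemma rh_mul {n : ℝ} (hn : 0 ≤ n) (L : ℝ) (x : E3) :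
    n / ‖x‖ * rh n L x = (ball (0:E3) L).indicator (fun x => (n / ‖x‖) ^ (5/2 : ℝ)) x := by
  unfold rh
  by_cases h : x ∈ ball (0:E3) L
  · rw [indicator_of_mem h, indicator_of_mem h, be_of_nonneg (by positivity)]
    have h0 : 0 ≤ n / ‖x‖ := by positivity
    rcases eq_or_lt_of_le h0 with h1 | h1
    · rw [← h1, Real.zero_rpow (by norm_num)]; simp
    · rw [show (5/2 : ℝ) = 1 + 3/2 by norm_num, Real.rpow_add h1, Real.rpow_one]
  · rw [indicator_of_notMem h, indicator_of_notMem h, mul_zero]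

lemma rh_nice {n : ℝ} (hn : 0 ≤ n) (L : ℝ) : Nice (rh n L) := by
  have h53 : Integrable (fun x => rh n L x ^ (5/3 : ℝ)) := by
    simp only [rh_pow hn]; exact J52 hn L
  have hv : IntegrableOn (fun _ : E3 => (1:ℝ)) (ball (0:E3) L) := by
    rw [integrableOn_const_iff]; right; exact measure_ball_lt_top
  have h1 : Integrable ((ball (0:E3) L).indicator (fun _ => (1:ℝ))) := by
    rwa [integrable_indicator_iff measurableSet_ball]
  refine ⟨rh_meas n L, ?_, ?_⟩
  · refine (h1.add h53).mono' (rh_meas n L).aestronglyMeasurable (Eventually.of_forall fun x => ?_)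
    rw [Real.norm_of_nonneg (rh_nonneg n L x)]
    show rh n L x ≤ (ball (0:E3) L).indicator (fun _ => (1:ℝ)) x + rh n L x ^ (5/3 : ℝ)
    by_cases hx : x ∈ ball (0:E3) L
    · rw [indicator_of_mem hx]
      have h0 := rh_nonneg n L x
      rcases le_or_gt (rh n L x) 1 with h2 | h2
      · have := Real.rpow_nonneg h0 (5/3 : ℝ)
        linarith
      · have := Real.rpow_le_rpow_of_exponent_le h2.le (show (1:ℝ) ≤ 5/3 by norm_num)
        rw [Real.rpow_one] at this
        linarith
    · unfold rh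
      rw [indicator_of_notMem hx, indicator_of_notMem hx, Real.zero_rpow (by norm_num)]
      simp
  · simpa only [abs_of_nonneg (rh_nonneg n L _)] using h53

/-- fixed points of the Thomas-Fermi equation in the ball -/
def FP (n L : ℝ) (τ : E3 → ℝ) : Prop :=
  Nice τ ∧ ∀ x, τ x = (ball (0:E3) L).indicator (fun x => be (n / ‖x‖ - pot τ x)) x

lemma FP.nonneg {n L : ℝ} {τ : E3 → ℝ} (h : FP n L τ) (x : E3) : 0 ≤ τ x := by
  rw [h.2 x]; exact indicator_nonneg (fun _ _ => be_nonneg _) _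

lemma pot_nn {τ : E3 → ℝ} (h : ∀ x, 0 ≤ τ x) (x : E3) : 0 ≤ pot τ x := by
  unfold pot
  exact integral_nonneg (fun y => div_nonneg (h y) (norm_nonneg _))

lemma exists_FP {n : ℝ} (hn : 0 ≤ n) (L : ℝ) : ∃ τ, FP n L τ := by
  have hR := rh_nice hn L
  have hi : Integrable (fun x => n / ‖x‖ * rh n L x) := by
    simp only [rh_mul hn]; exact J52 hn L
  obtain ⟨τ, hτ, hE⟩ := exists_EL (kop_full hR) hR (rh_nonneg n L) (hm_meas n) hi
  have nτ : Nice τ := hτ.nice hR
  refine ⟨τ, nτ, fun x => ?_⟩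
  have hp := pot_nn (fun y => (hτ.2 y).1) x
  rw [hE x]
  unfold rh
  by_cases hx : x ∈ ball (0:E3) L
  · rw [indicator_of_mem hx, indicator_of_mem hx]
    exact min_eq_right (be_mono (by linarith))
  · rw [indicator_of_notMem hx, indicator_of_notMem hx]
    exact min_eq_left (be_nonneg _)

lemma FP.uniq {n L : ℝ} {τ σ : E3 → ℝ} (h : FP n L τ) (g : FP n L σ) : τ = σ := by
  have nd : Nice (fun x => τ x - σ x) := nice_sub' h.1 g.1
  have hp := pot_pos nd
  have hpd : ∀ x, pot (fun x => τ x - σ x) x = pot τ x - pot σ x := fun x => TF_E1_potsub τ σ h.1 g.1 x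
  have hle : ∀ x, (τ x - σ x) * pot (fun x => τ x - σ x) x ≤ 0 := by
    intro x
    rw [hpd, h.2 x, g.2 x]
    by_cases hx : x ∈ ball (0:E3) L
    · rw [indicator_of_mem hx, indicator_of_mem hx]
      rcases le_total (pot τ x) (pot σ x) with h1 | h1
      · have := be_mono (show n / ‖x‖ - pot σ x ≤ n / ‖x‖ - pot τ x by linarith)
        exact mul_nonpos_of_nonneg_of_nonpos (by linarith) (by linarith)
      · have := be_mono (show n / ‖x‖ - pot τ x ≤ n / ‖x‖ - pot σ x by linarith)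
        exact mul_nonpos_of_nonpos_of_nonneg (by linarith) (by linarith)
    · rw [indicator_of_notMem hx, indicator_of_notMem hx]; simp
  have hi : Integrable (fun x => (τ x - σ x) * pot (fun x => τ x - σ x) x) :=
    TF_E1_int _ _ nd.2.1 nd
  have h0 : ∫ x, -((τ x - σ x) * pot (fun x => τ x - σ x) x) = 0 := by
    rw [integral_neg]
    have := integral_nonpos (μ := volume) hle
    have h2 : ∫ x, (τ x - σ x) * pot (fun x => τ x - σ x) x = 0 := le_antisymm this hp
    rw [h2, neg_zero]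
  have h1 := (integral_eq_zero_iff_of_nonneg (fun x => by
    have := hle x
    show (0:ℝ) ≤ -((τ x - σ x) * pot (fun x => τ x - σ x) x)
    linarith) hi.neg).1 h0
  have hae : τ =ᵐ[volume] σ := by
    filter_upwards [h1] with x hx
    have hx' : (τ x - σ x) * pot (fun x => τ x - σ x) x = 0 := by
      have : -((τ x - σ x) * pot (fun x => τ x - σ x) x) = 0 := hx
      linarith
    rcases mul_eq_zero.1 hx' with h3 | h3
    · linarith
    · rw [hpd] at h3
      rw [h.2 x, g.2 x]
      have : pot τ x = pot σ x := by linarith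
      by_cases hb : x ∈ ball (0:E3) L
      · rw [indicator_of_mem hb, indicator_of_mem hb, this]
      · rw [indicator_of_notMem hb, indicator_of_notMem hb]
  have hpe : ∀ x, pot τ x = pot σ x := by
    intro x
    unfold pot
    apply integral_congr_ae
    filter_upwards [hae] with y hy
    rw [hy]
  funext x
  rw [h.2 x, g.2 x]
  by_cases hb : x ∈ ball (0:E3) L
  · rw [indicator_of_mem hb, indicator_of_mem hb, hpe]
  · rw [indicator_of_notMem hb, indicator_of_notMem hb]

lemma int_iso (A : E3 ≃ₗᵢ[ℝ] E3) (f : E3 → ℝ) : ∫ x, f (A x) = ∫ x, f x :=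
  A.measurePreserving.integral_comp A.toHomeomorph.measurableEmbedding f

lemma intble_iso (A : E3 ≃ₗᵢ[ℝ] E3) {f : E3 → ℝ} (hf : Integrable f) : Integrable (fun x => f (A x)) :=
  (A.measurePreserving.integrable_comp_emb A.toHomeomorph.measurableEmbedding).2 hf

lemma nice_iso (A : E3 ≃ₗᵢ[ℝ] E3) {f : E3 → ℝ} (hf : Nice f) : Nice (fun x => f (A x)) :=
  ⟨hf.1.comp A.continuous.measurable, intble_iso A hf.2.1, intble_iso A hf.2.2⟩

lemma pot_iso (A : E3 ≃ₗᵢ[ℝ] E3) (f : E3 → ℝ) (x : E3) : pot (fun y => f (A y)) x = pot f (A x) := by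
  unfold pot
  rw [← int_iso A (fun y => f y / ‖A x - y‖)]
  congr 1
  funext y
  rw [← map_sub, LinearIsometryEquiv.norm_map]

lemma FP.iso {n L : ℝ} {τ : E3 → ℝ} (h : FP n L τ) (A : E3 ≃ₗᵢ[ℝ] E3) : FP n L (fun x => τ (A x)) := by
  refine ⟨nice_iso A h.1, fun x => ?_⟩
  show τ (A x) = _
  rw [h.2 (A x)]
  have hb : A x ∈ ball (0:E3) L ↔ x ∈ ball (0:E3) L := by
    rw [mem_ball_zero_iff, mem_ball_zero_iff, LinearIsometryEquiv.norm_map]
  by_cases hx : x ∈ ball (0:E3) L
  · rw [indicator_of_mem hx, indicator_of_mem (hb.2 hx), pot_iso, LinearIsometryEquiv.norm_map]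
  · rw [indicator_of_notMem hx, indicator_of_notMem (fun h => hx (hb.1 h))]

lemma FP.rad {n L : ℝ} {τ : E3 → ℝ} (h : FP n L τ) (x y : E3) (hxy : ‖x‖ = ‖y‖) : τ x = τ y := by
  set A : E3 ≃ₗᵢ[ℝ] E3 := Submodule.reflection (Submodule.span ℝ {x - y})ᗮ with hA
  have hAx : A x = y := Submodule.reflection_sub hxy
  have := congrFun (h.uniq (h.iso A)) x
  rw [this, hAx]

end Pool.Agent.X91.SA
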