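import Pool.Agent.X91.SA.Atom

/-!
# Charge bounds for the Thomas-Fermi atom in a ball
-/

set_option autoImplicit false

open MeasureTheory Set Filter Topology Metric
open scoped RealInnerProductSpace

namespace Pool.Agent.X91.SA

open Pool.Agent.Helper557.TFP
open Pool.Agent.H9R2.TF (be be_mono be_nonneg be_meas be_pow)

noncomputable def Q (τ : E3 → ℝ) (t : ℝ) : ℝ := ∫ x in ball (0:E3) t, τ x

lemma Q_ind (τ : E3 → ℝ) (t : ℝ) : Q τ t = ∫ x, (ball (0:E3) t).indicator τ x := by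
  unfold Q; rw [integral_indicator measurableSet_ball]

lemma Q_cont {τ : E3 → ℝ} (h : Integrable τ) : Continuous (Q τ) := by
  rw [continuous_iff_continuousAt]
  intro t0
  have e : Q τ = fun t => ∫ x, (ball (0:E3) t).indicator τ x := funext (Q_ind τ)
  rw [e]
  apply tendsto_integral_filter_of_dominated_convergence (fun x => ‖τ x‖)
  · exact Eventually.of_forall (fun t => (h.indicator measurableSet_ball).aestronglyMeasurable)
  · exact Eventually.of_forall (fun t => Eventually.of_forall (fun x => norm_indicator_le_norm_self _ _))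
  · exact h.norm
  · have h0 : volume (sphere (0:E3) t0) = 0 := Measure.addHaar_sphere _ _ _
    have h1 : ∀ᵐ x : E3, x ∉ sphere (0:E3) t0 := measure_eq_zero_iff_ae_notMem.1 h0
    filter_upwards [h1] with x hx
    rw [mem_sphere_zero_iff_norm] at hx
    rcases lt_or_gt_of_ne hx with h2 | h2
    · have : ∀ᶠ t in 𝓝 t0, (ball (0:E3) t).indicator τ x = τ x := by
        filter_upwards [lt_mem_nhds h2] with t ht
        exact indicator_of_mem (by simpa using ht) _
      rw [indicator_of_mem (by simpa using h2)]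
      exact tendsto_const_nhds.congr' (this.mono fun _ h => h.symm)
    · have : ∀ᶠ t in 𝓝 t0, (ball (0:E3) t).indicator τ x = 0 := by
        filter_upwards [gt_mem_nhds h2] with t ht
        exact indicator_of_notMem (by simpa using le_of_lt ht) _
      rw [indicator_of_notMem (by simpa using h2.le)]
      exact tendsto_const_nhds.congr' (this.mono fun _ h => h.symm)

/-- radial nonnegative density in a ball -/
structure Rd (L : ℝ) (τ : E3 → ℝ) : Prop where
  nice : Nice τ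
  nn : ∀ x, 0 ≤ τ x
  out : ∀ x, L ≤ ‖x‖ → τ x = 0
  rad : ∀ x y, ‖x‖ = ‖y‖ → τ x = τ y
  pos : 0 < L

lemma Q_mono {τ : E3 → ℝ} (hi : Integrable τ) (h0 : ∀ x, 0 ≤ τ x) {s t : ℝ} (h : s ≤ t) : Q τ s ≤ Q τ t := by
  rw [Q_ind, Q_ind]
  refine integral_mono (hi.indicator measurableSet_ball) (hi.indicator measurableSet_ball) (fun x => ?_)
  exact indicator_le_indicator_of_subset (ball_subset_ball h) h0 x

lemma Q_le {τ : E3 → ℝ} (hi : Integrable τ) (h0 : ∀ x, 0 ≤ τ x) (s : ℝ) : Q τ s ≤ ∫ x, τ x := by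
  rw [Q_ind]
  refine integral_mono (hi.indicator measurableSet_ball) hi (fun x => ?_)
  exact indicator_le_self' (fun x _ => h0 x) x

lemma Rd.tot {L : ℝ} {τ : E3 → ℝ} (h : Rd L τ) {s : ℝ} (hs : L ≤ s) : Q τ s = ∫ x, τ x := by
  rw [Q_ind]
  congr 1
  funext x
  by_cases hx : x ∈ ball (0:E3) s
  · rw [indicator_of_mem hx]
  · rw [indicator_of_notMem hx, h.out x (hs.trans (by simpa using hx))]

lemma Rd.pot_eq {L : ℝ} {τ : E3 → ℝ} (h : Rd L τ) {y : E3} (hy : y ≠ 0) :
    pot τ y = ∫ x, τ x * (1 / max ‖x‖ ‖y‖) := pot_rad h.nice.1 h.rad h.pos h.out hy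

lemma Rd.ker_int {L : ℝ} {τ : E3 → ℝ} (h : Rd L τ) {y : E3} (hy : y ≠ 0) :
    Integrable (fun x => τ x * (1 / max ‖x‖ ‖y‖)) := by
  have hy0 : 0 < ‖y‖ := norm_pos_iff.2 hy
  have hm : Measurable (fun x : E3 => 1 / max ‖x‖ ‖y‖) := measurable_const.div (measurable_norm.max measurable_const)
  refine h.nice.2.1.mul_bdd (c := 1 / ‖y‖) hm.aestronglyMeasurable (Eventually.of_forall fun x => ?_)
  rw [Real.norm_of_nonneg (by positivity)]
  exact one_div_le_one_div_of_le hy0 (le_max_right _ _)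

lemma Rd.pot_le {L : ℝ} {τ : E3 → ℝ} (h : Rd L τ) {y : E3} (hy : y ≠ 0) {s : ℝ} (hs : 0 < s) :
    pot τ y ≤ Q τ s / ‖y‖ + ((∫ x, τ x) - Q τ s) / s := by
  have hy0 : 0 < ‖y‖ := norm_pos_iff.2 hy
  have hI := h.nice.2.1
  have hJ : Integrable ((ball (0:E3) s).indicator τ) := hI.indicator measurableSet_ball
  rw [h.pot_eq hy]
  have e : Q τ s / ‖y‖ + ((∫ x, τ x) - Q τ s) / s =
      ∫ x, ((ball (0:E3) s).indicator τ x * (1 / ‖y‖) + (τ x - (ball (0:E3) s).indicator τ x) * (1 / s)) := by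
    have i2 : Integrable (fun x => (τ x - (ball (0:E3) s).indicator τ x) * (1 / s)) := (hI.sub hJ).mul_const _
    rw [integral_add (hJ.mul_const _) i2, integral_mul_const, integral_mul_const,
      integral_sub hI hJ, ← Q_ind]
    ring
  rw [e]
  refine integral_mono (h.ker_int hy) ((hJ.mul_const _).add ((hI.sub hJ).mul_const _)) (fun x => ?_)
  show τ x * (1 / max ‖x‖ ‖y‖) ≤
    (ball (0:E3) s).indicator τ x * (1 / ‖y‖) + (τ x - (ball (0:E3) s).indicator τ x) * (1 / s)
  by_cases hx : x ∈ ball (0:E3) s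
  · rw [indicator_of_mem hx, sub_self, zero_mul, add_zero]
    exact mul_le_mul_of_nonneg_left (one_div_le_one_div_of_le hy0 (le_max_right _ _)) (h.nn x)
  · rw [indicator_of_notMem hx, sub_zero, zero_mul, zero_add]
    have : s ≤ ‖x‖ := by simpa using hx
    exact mul_le_mul_of_nonneg_left (one_div_le_one_div_of_le hs (this.trans (le_max_left _ _))) (h.nn x)

lemma Rd.pot_ge {L : ℝ} {τ : E3 → ℝ} (h : Rd L τ) {y : E3} (hy : y ≠ 0) :
    Q τ ‖y‖ / ‖y‖ ≤ pot τ y := by
  have hI := h.nice.2.1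
  have hJ : Integrable ((ball (0:E3) ‖y‖).indicator τ) := hI.indicator measurableSet_ball
  rw [h.pot_eq hy, Q_ind, div_eq_mul_one_div, ← integral_mul_const]
  refine integral_mono (hJ.mul_const _) (h.ker_int hy) (fun x => ?_)
  show (ball (0:E3) ‖y‖).indicator τ x * (1 / ‖y‖) ≤ τ x * (1 / max ‖x‖ ‖y‖)
  by_cases hx : x ∈ ball (0:E3) ‖y‖
  · rw [indicator_of_mem hx, max_eq_right (by simpa using (mem_ball_zero_iff.1 hx).le)]
  · rw [indicator_of_notMem hx, zero_mul]
    exact mul_nonneg (h.nn x) (by positivity)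

lemma Rd.pot_out {L : ℝ} {τ : E3 → ℝ} (h : Rd L τ) {y : E3} (hy : L ≤ ‖y‖) :
    pot τ y = (∫ x, τ x) / ‖y‖ := by
  have hy0 : y ≠ 0 := norm_pos_iff.1 (h.pos.trans_le hy)
  rw [h.pot_eq hy0, div_eq_mul_one_div, ← integral_mul_const]
  congr 1
  funext x
  rcases le_or_gt L ‖x‖ with h1 | h1
  · rw [h.out x h1, zero_mul, zero_mul]
  · rw [max_eq_right (h1.le.trans hy)]

/-! ### the Thomas-Fermi atom -/

lemma FP.rd {n L : ℝ} {τ : E3 → ℝ} (h : FP n L τ) (hL : 0 < L) : Rd L τ where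
  nice := h.1
  nn := h.nonneg
  out := fun x hx => by rw [h.2 x, indicator_of_notMem (by simpa using hx)]
  rad := h.rad
  pos := hL

lemma FP.el {n L : ℝ} {τ : E3 → ℝ} (h : FP n L τ) {x : E3} (hx : ‖x‖ < L) :
    τ x = be (n / ‖x‖ - pot τ x) := by
  conv_lhs => rw [h.2 x]
  rw [indicator_of_mem (by simpa using hx)]

lemma be_zero_of' {u : ℝ} (h : u ≤ 0) : be u = 0 := by
  unfold Pool.Agent.H9R2.TF.be; rw [max_eq_right h, Real.zero_rpow (by norm_num)]

lemma FP.charge {n L : ℝ} {τ : E3 → ℝ} (h : FP n L τ) (hL : 0 < L) (hn : 0 < n) : (∫ x, τ x) ≤ n := by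
  have hr := h.rd hL
  have hI := h.1.2.1
  by_contra hcon
  push Not at hcon
  have hQL : Q τ L = ∫ x, τ x := hr.tot le_rfl
  have hQ0 : Q τ 0 = 0 := by unfold Q; rw [ball_zero]; simp
  have hivt := intermediate_value_Icc hL.le (Q_cont hI).continuousOn
  obtain ⟨t0, ht0, ht⟩ := hivt (show n ∈ Icc (Q τ 0) (Q τ L) by rw [hQ0, hQL]; exact ⟨hn.le, hcon.le⟩)
  have ht0p : 0 < t0 := by
    rcases eq_or_lt_of_le ht0.1 with h1 | h1
    · rw [← h1, hQ0] at ht; linarith
    · exact h1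
  have hz : ∀ x, t0 ≤ ‖x‖ → τ x = 0 := by
    intro x hx
    rcases le_or_gt L ‖x‖ with h1 | h1
    · exact hr.out x h1
    · have hx0 : x ≠ 0 := norm_pos_iff.1 (ht0p.trans_le hx)
      have hxp : 0 < ‖x‖ := norm_pos_iff.2 hx0
      rw [h.el h1]
      apply be_zero_of'
      have h2 := hr.pot_ge hx0
      have h3 : n ≤ Q τ ‖x‖ := by rw [← ht]; exact Q_mono hI h.nonneg hx
      have h4 : n / ‖x‖ ≤ Q τ ‖x‖ / ‖x‖ := div_le_div_of_nonneg_right h3 hxp.le
      linarith
  have : Q τ t0 = ∫ x, τ x := by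
    rw [Q_ind]
    congr 1
    funext x
    by_cases hx : x ∈ ball (0:E3) t0
    · rw [indicator_of_mem hx]
    · rw [indicator_of_notMem hx, hz x (by simpa using hx)]
  rw [this] at ht
  linarith

lemma FP.phi_nn {n L : ℝ} {τ : E3 → ℝ} (h : FP n L τ) (hL : 0 < L) (hn : 0 < n) {x : E3} (hx : x ≠ 0) :
    0 ≤ n / ‖x‖ - pot τ x := by
  have hr := h.rd hL
  have h1 := hr.pot_le hx hL
  rw [hr.tot le_rfl, sub_self, zero_div, add_zero] at h1
  have h2 : (∫ x, τ x) / ‖x‖ ≤ n / ‖x‖ := div_le_div_of_nonneg_right (h.charge hL hn) (norm_nonneg _)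
  linarith

lemma vol_ball (s : ℝ) (hs : 0 ≤ s) : (volume (ball (0:E3) s)).toReal = 4 / 3 * Real.pi * s ^ 3 := by
  rw [EuclideanSpace.volume_ball_fin_three, ← ENNReal.ofReal_pow hs, ← ENNReal.ofReal_mul (by positivity),
    ENNReal.toReal_ofReal (by positivity)]
  ring

lemma FP.decay {n L : ℝ} {τ : E3 → ℝ} (h : FP n L τ) (hL : 0 < L) (hn : 0 < n) {r : ℝ} (hr : 0 < r)
    (h2 : 2 * r ≤ L) : n - Q τ (4 * r) ≤ 4 * (n - Q τ r) ^ (2/3 : ℝ) / r := by
  have hR := h.rd hL
  have hI := h.1.2.1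
  have hch := h.charge hL hn
  set M := n - Q τ (4 * r) with hM
  have hM0 : 0 ≤ M := by
    have := Q_le hI h.nonneg (4 * r); rw [hM]; linarith
  set c : ℝ := (M / (4 * r)) ^ (3/2 : ℝ) with hc
  have hc0 : 0 ≤ c := by rw [hc]; positivity
  -- lower bound of the density
  have hlow : ∀ x : E3, r ≤ ‖x‖ → ‖x‖ < 2 * r → c ≤ τ x := by
    intro x h3 h4
    have hxp : 0 < ‖x‖ := hr.trans_le h3
    have hx0 : x ≠ 0 := norm_pos_iff.1 hxp
    rw [h.el (h4.trans_le h2)]
    have h5 := hR.pot_le hx0 (show 0 < 4 * r by positivity)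
    have h6 : ((∫ x, τ x) - Q τ (4 * r)) / (4 * r) ≤ M / (4 * r) := by
      apply div_le_div_of_nonneg_right _ (by positivity); rw [hM]; linarith
    have h7 : M / (2 * r) ≤ M / ‖x‖ := div_le_div_of_nonneg_left hM0 hxp h4.le
    have h8 : n / ‖x‖ - Q τ (4 * r) / ‖x‖ = M / ‖x‖ := by rw [hM]; ring
    have h9 : M / (2 * r) = M / (4 * r) + M / (4 * r) := by field_simp; ring
    have h10 : M / (4 * r) ≤ n / ‖x‖ - pot τ x := by linarith
    rw [hc, ← be_of_nonneg (by positivity)]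
    exact be_mono h10
  -- charge in the shell
  have hsh : c * (28 / 3 * Real.pi * r ^ 3) ≤ Q τ (2 * r) - Q τ r := by
    have e1 : Q τ (2 * r) - Q τ r = ∫ x, ((ball (0:E3) (2 * r)).indicator τ x - (ball (0:E3) r).indicator τ x) := by
      rw [integral_sub (hI.indicator measurableSet_ball) (hI.indicator measurableSet_ball), ← Q_ind, ← Q_ind]
    have ci : ∀ s : ℝ, Integrable ((ball (0:E3) s).indicator (fun _ => c)) := by
      intro s
      rw [integrable_indicator_iff measurableSet_ball, integrableOn_const_iff]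
      right; exact measure_ball_lt_top
    have cv : ∀ s : ℝ, 0 ≤ s → ∫ x, (ball (0:E3) s).indicator (fun _ => c) x = 4 / 3 * Real.pi * s ^ 3 * c := by
      intro s hs
      rw [integral_indicator measurableSet_ball, setIntegral_const, smul_eq_mul, Measure.real, vol_ball s hs]
    have e2 : c * (28 / 3 * Real.pi * r ^ 3) =
        ∫ x, ((ball (0:E3) (2 * r)).indicator (fun _ => c) x - (ball (0:E3) r).indicator (fun _ => c) x) := by
      rw [integral_sub (ci _) (ci _), cv _ (by positivity), cv _ hr.le]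
      ring
    rw [e1, e2]
    refine integral_mono ((ci _).sub (ci _)) ((hI.indicator measurableSet_ball).sub (hI.indicator measurableSet_ball))
      (fun x => ?_)
    show (ball (0:E3) (2 * r)).indicator (fun _ => c) x - (ball (0:E3) r).indicator (fun _ => c) x ≤
      (ball (0:E3) (2 * r)).indicator τ x - (ball (0:E3) r).indicator τ x
    by_cases h3 : x ∈ ball (0:E3) r
    · have h4 : x ∈ ball (0:E3) (2 * r) := ball_subset_ball (by linarith) h3
      rw [indicator_of_mem h3, indicator_of_mem h4, indicator_of_mem h3, indicator_of_mem h4]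
      simp
    · by_cases h4 : x ∈ ball (0:E3) (2 * r)
      · rw [indicator_of_notMem h3, indicator_of_mem h4, indicator_of_notMem h3, indicator_of_mem h4]
        have := hlow x (by simpa using h3) (by simpa using h4)
        linarith
      · rw [indicator_of_notMem h3, indicator_of_notMem h4, indicator_of_notMem h3, indicator_of_notMem h4]
  have hq2 : Q τ (2 * r) ≤ n := (Q_le hI h.nonneg _).trans hch
  have hpi := Real.pi_gt_three
  have hm0 : 0 ≤ n - Q τ r := by
    have := Q_le hI h.nonneg r; linarith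
  have h11 : c * r ^ 3 ≤ n - Q τ r := by
    have : c * r ^ 3 ≤ c * (28 / 3 * Real.pi * r ^ 3) := by
      apply mul_le_mul_of_nonneg_left _ hc0
      have : 0 < r ^ 3 := by positivity
      nlinarith
    linarith
  have h12 : (c * r ^ 3) ^ (2/3 : ℝ) ≤ (n - Q τ r) ^ (2/3 : ℝ) :=
    Real.rpow_le_rpow (by positivity) h11 (by norm_num)
  have h13 : (c * r ^ 3) ^ (2/3 : ℝ) = M / (4 * r) * r ^ 2 := by
    rw [Real.mul_rpow hc0 (by positivity), hc, ← Real.rpow_mul (by positivity), ← Real.rpow_natCast r 3,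
      ← Real.rpow_mul hr.le]
    norm_num
  rw [h13] at h12
  have h14 : M / (4 * r) * r ^ 2 = M * r / 4 := by field_simp
  rw [h14] at h12
  rw [le_div_iff₀ hr]
  linarith

/-- the charge outside a fixed radius is `O(n^(4/9))` -/
lemma FP.tail {n L : ℝ} {τ : E3 → ℝ} (h : FP n L τ) (hL : 0 < L) (hn : 0 < n) {a : ℝ} (ha : 0 < a)
    (h2 : a ≤ L) : n - Q τ a ≤ 16 * (64 / a) ^ (2/3 : ℝ) / a * n ^ (4/9 : ℝ) := by
  have hI := h.1.2.1
  have h1 := h.decay hL hn (show 0 < a / 16 by positivity) (by linarith)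
  have h3 := h.decay hL hn (show 0 < a / 4 by positivity) (by linarith)
  rw [show 4 * (a / 16) = a / 4 by ring] at h1
  rw [show 4 * (a / 4) = a by ring] at h3
  have h4 : n - Q τ (a / 16) ≤ n := by
    have : 0 ≤ Q τ (a / 16) := setIntegral_nonneg measurableSet_ball (fun x _ => h.nonneg x)
    linarith
  have h40 : 0 ≤ n - Q τ (a / 16) := by
    have := Q_le hI h.nonneg (a / 16); have := h.charge hL hn; linarith
  have h50 : 0 ≤ n - Q τ (a / 4) := by
    have := Q_le hI h.nonneg (a / 4); have := h.charge hL hn; linarith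
  have h5 : n - Q τ (a / 4) ≤ 64 / a * n ^ (2/3 : ℝ) := by
    refine h1.trans ?_
    have := Real.rpow_le_rpow h40 h4 (show (0:ℝ) ≤ 2/3 by norm_num)
    have e : 64 / a * n ^ (2/3 : ℝ) = 4 * n ^ (2/3 : ℝ) / (a / 16) := by field_simp; ring
    rw [e]
    exact div_le_div_of_nonneg_right (by linarith) (by positivity)
  refine h3.trans ?_
  have h6 : (n - Q τ (a / 4)) ^ (2/3 : ℝ) ≤ (64 / a) ^ (2/3 : ℝ) * n ^ (4/9 : ℝ) := by
    refine (Real.rpow_le_rpow h50 h5 (by norm_num)).trans (le_of_eq ?_)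
    rw [Real.mul_rpow (by positivity) (by positivity), ← Real.rpow_mul hn.le]
    norm_num
  have e : 16 * (64 / a) ^ (2/3 : ℝ) / a * n ^ (4/9 : ℝ) = 4 * ((64 / a) ^ (2/3 : ℝ) * n ^ (4/9 : ℝ)) / (a / 4) := by
    field_simp; ring
  rw [e]
  exact div_le_div_of_nonneg_right (by linarith) (by positivity)

end Pool.Agent.X91.SA
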