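import Mathlib

/-!
# Thomas-Fermi theory of molecules: definitions
-/

set_option autoImplicit false

open MeasureTheory

namespace Pool.Agent.X91.SA

/-- physical space -/
abbrev R3 := EuclideanSpace ℝ (Fin 3)

/-- densities on which the Thomas-Fermi functional is defined: `ρ ≥ 0`, `∫ ρ < ∞`, `∫ ρ^(5/3) < ∞` -/
def Dens (ρ : R3 → ℝ) : Prop :=
  Measurable ρ ∧ (∀ x, 0 ≤ ρ x) ∧ Integrable ρ ∧ Integrable (fun x => ρ x ^ (5/3 : ℝ))

/-- the Thomas-Fermi functional with nuclear charges `z j` at the points `R j`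
(including the nuclear repulsion) -/
noncomputable def TFE {k : ℕ} (z : Fin k → ℝ) (R : Fin k → R3) (ρ : R3 → ℝ) : ℝ :=
  3/5 * (∫ x, ρ x ^ (5/3 : ℝ)) - (∫ x, (∑ j, z j / ‖x - R j‖) * ρ x)
    + 1/2 * (∫ x, ∫ y, ρ x * ρ y / ‖x - y‖)
    + ∑ i, ∑ j ∈ Finset.Ioi i, z i * z j / ‖R i - R j‖

/-- the values of the functional on neutral densities -/
def Vals {k : ℕ} (z : Fin k → ℝ) (R : Fin k → R3) : Set ℝ :=
  {E | ∃ ρ, Dens ρ ∧ ∫ x, ρ x = ∑ j, z j ∧ TFE z R ρ = E}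

/-- the neutral Thomas-Fermi energy `e` -/
noncomputable def en {k : ℕ} (z : Fin k → ℝ) (R : Fin k → R3) : ℝ := sInf (Vals z R)

/-- the energy of a neutral atom with nuclear charge `z` -/
noncomputable def enAt (z : ℝ) : ℝ := en (fun _ : Fin 1 => z) (fun _ => 0)

/-- the sum of the atomic energies -/
noncomputable def enSum {k : ℕ} (z : Fin k → ℝ) : ℝ := ∑ j, enAt (z j)

/-- superadditivity on the nonnegative orthant -/
def SuperAdd {k : ℕ} (f : (Fin k → ℝ) → ℝ) : Prop :=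
  ∀ z₁ z₂ : Fin k → ℝ, (∀ i, 0 ≤ z₁ i) → (∀ i, 0 ≤ z₂ i) → f z₁ + f z₂ ≤ f (z₁ + z₂)

end Pool.Agent.X91.SA
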