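import Pool.Agent.X91.SA.Dec

/-!
# Energy comparison for the Thomas-Fermi atom
-/

set_option autoImplicit false

open MeasureTheory Set Filter Topology Metric
open scoped RealInnerProductSpace

namespace Pool.Agent.X91.SA

open Pool.Agent.Helper557.TFP
open Pool.Agent.H9R2.TF (be be_mono be_nonneg be_meas be_pow kop_full KOp pot_pos nice_sub' nice_add nice_smul pot_mono
  pot_lin sc2)
open Pool.Agent.X91.TW (Ph ball_pot)

/-- atomic energy functional -/
noncomputable def AE (n : ℝ) (ρ : E3 → ℝ) : ℝ :=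
  3/5 * (∫ x, ρ x ^ (5/3 : ℝ)) - (∫ x, n / ‖x‖ * ρ x) + 1/2 * ∫ x, ρ x * pot ρ x

lemma coul_int (n : ℝ) (p : E3) {g : E3 → ℝ} (hg : Nice g) : Integrable (fun x => n / ‖x - p‖ * g x) := by
  obtain ⟨B, hB⟩ := nice_bound g hg
  have := (hB p).1.const_mul n
  refine this.congr (Eventually.of_forall fun y => ?_)
  show n * (g y / ‖p - y‖) = n / ‖y - p‖ * g y
  rw [norm_sub_rev]; ring

lemma coul_int0 (n : ℝ) {g : E3 → ℝ} (hg : Nice g) : Integrable (fun x => n / ‖x‖ * g x) := by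
  simpa using coul_int n 0 hg

lemma i53 {ρ : E3 → ℝ} (hρ : Nice ρ) (h0 : ∀ x, 0 ≤ ρ x) : Integrable (fun x => ρ x ^ (5/3 : ℝ)) := by
  have := hρ.2.2
  simpa only [abs_of_nonneg (h0 _)] using this

lemma i23 {ρ σ : E3 → ℝ} (hρ : Nice ρ) (hσ : Nice σ) (h0 : ∀ x, 0 ≤ ρ x) (h1 : ∀ x, 0 ≤ σ x) :
    Integrable (fun x => σ x * ρ x ^ (2/3 : ℝ)) := by
  refine ((i53 hρ h0).add (i53 hσ h1)).mono' (hσ.1.mul (hρ.1.pow_const _)).aestronglyMeasurable
    (Eventually.of_forall fun x => ?_)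
  have a0 := h0 x
  have b0 := h1 x
  rw [Real.norm_of_nonneg (by positivity)]
  show σ x * ρ x ^ (2/3 : ℝ) ≤ ρ x ^ (5/3 : ℝ) + σ x ^ (5/3 : ℝ)
  rcases le_total (σ x) (ρ x) with h | h
  · have h2 : σ x * ρ x ^ (2/3 : ℝ) ≤ ρ x * ρ x ^ (2/3 : ℝ) := mul_le_mul_of_nonneg_right h (by positivity)
    have h3 : ρ x * ρ x ^ (2/3 : ℝ) = ρ x ^ (5/3 : ℝ) := by
      rcases eq_or_lt_of_le a0 with h4 | h4
      · rw [← h4, Real.zero_rpow (by norm_num), Real.zero_rpow (by norm_num), zero_mul]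
      · rw [show (5/3 : ℝ) = 1 + 2/3 by norm_num, Real.rpow_add h4, Real.rpow_one]
    have : 0 ≤ σ x ^ (5/3 : ℝ) := by positivity
    linarith
  · have h2 : σ x * ρ x ^ (2/3 : ℝ) ≤ σ x * σ x ^ (2/3 : ℝ) :=
      mul_le_mul_of_nonneg_left (Real.rpow_le_rpow a0 h (by norm_num)) b0
    have h3 : σ x * σ x ^ (2/3 : ℝ) = σ x ^ (5/3 : ℝ) := by
      rcases eq_or_lt_of_le b0 with h4 | h4
      · rw [← h4, Real.zero_rpow (by norm_num), Real.zero_rpow (by norm_num), zero_mul]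
      · rw [show (5/3 : ℝ) = 1 + 2/3 by norm_num, Real.rpow_add h4, Real.rpow_one]
    have : 0 ≤ ρ x ^ (5/3 : ℝ) := by positivity
    linarith

lemma mul23 {a : ℝ} (a0 : 0 ≤ a) : a * a ^ (2/3 : ℝ) = a ^ (5/3 : ℝ) := by
  rcases eq_or_lt_of_le a0 with h4 | h4
  · rw [← h4, Real.zero_rpow (by norm_num), Real.zero_rpow (by norm_num), zero_mul]
  · rw [show (5/3 : ℝ) = 1 + 2/3 by norm_num, Real.rpow_add h4, Real.rpow_one]

lemma DE_int (n : ℝ) {ρ σ : E3 → ℝ} (hρ : Nice ρ) (hσ : Nice σ) (h0 : ∀ x, 0 ≤ ρ x) (h1 : ∀ x, 0 ≤ σ x) :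
    Integrable (fun x => (ρ x - σ x) * (ρ x ^ (2/3 : ℝ) - n / ‖x‖ + pot ρ x)) := by
  have h := ((((i23 hρ hρ h0 h0).sub (i23 hρ hσ h0 h1)).sub (coul_int0 n hρ)).add (coul_int0 n hσ)).add
    ((TF_E1_int ρ ρ hρ.2.1 hρ).sub (TF_E1_int σ ρ hσ.2.1 hρ))
  refine h.congr (Eventually.of_forall fun x => ?_)
  simp only [Pi.add_apply, Pi.sub_apply]
  ring

/-- convexity of the atomic functional -/
theorem conv_ineq (n : ℝ) {ρ σ : E3 → ℝ} (hρ : Nice ρ) (hσ : Nice σ) (h0 : ∀ x, 0 ≤ ρ x) (h1 : ∀ x, 0 ≤ σ x) :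
    AE n ρ - AE n σ ≤ ∫ x, (ρ x - σ x) * (ρ x ^ (2/3 : ℝ) - n / ‖x‖ + pot ρ x) := by
  have a1 := i23 hρ hρ h0 h0
  have a2 := i23 hρ hσ h0 h1
  have b1 := coul_int0 n hρ
  have b2 := coul_int0 n hσ
  have c1 := TF_E1_int ρ ρ hρ.2.1 hρ
  have c2 := TF_E1_int σ ρ hσ.2.1 hρ
  have e : ∫ x, (ρ x - σ x) * (ρ x ^ (2/3 : ℝ) - n / ‖x‖ + pot ρ x) =
      (∫ x, (ρ x * ρ x ^ (2/3 : ℝ) - σ x * ρ x ^ (2/3 : ℝ))) - (∫ x, n / ‖x‖ * ρ x) + (∫ x, n / ‖x‖ * σ x)
        + (∫ x, ρ x * pot ρ x) - ∫ x, σ x * pot ρ x := by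
    have s1 : Integrable (fun x => ρ x * ρ x ^ (2/3 : ℝ) - σ x * ρ x ^ (2/3 : ℝ)) := a1.sub a2
    have s2 : Integrable (fun x => ρ x * ρ x ^ (2/3 : ℝ) - σ x * ρ x ^ (2/3 : ℝ) - n / ‖x‖ * ρ x) := s1.sub b1
    have s3 : Integrable (fun x => ρ x * ρ x ^ (2/3 : ℝ) - σ x * ρ x ^ (2/3 : ℝ) - n / ‖x‖ * ρ x
      + n / ‖x‖ * σ x) := s2.add b2
    have s4 : Integrable (fun x => ρ x * ρ x ^ (2/3 : ℝ) - σ x * ρ x ^ (2/3 : ℝ) - n / ‖x‖ * ρ x
      + n / ‖x‖ * σ x + ρ x * pot ρ x) := s3.add c1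
    rw [← integral_sub s1 b1, ← integral_add s2 b2, ← integral_add s3 c1, ← integral_sub s4 c2]
    congr 1
    funext x
    ring
  have hA : 3/5 * (∫ x, ρ x ^ (5/3 : ℝ)) - 3/5 * (∫ x, σ x ^ (5/3 : ℝ)) ≤
      ∫ x, (ρ x * ρ x ^ (2/3 : ℝ) - σ x * ρ x ^ (2/3 : ℝ)) := by
    rw [← integral_const_mul, ← integral_const_mul,
      ← integral_sub ((i53 hρ h0).const_mul _) ((i53 hσ h1).const_mul _)]
    refine integral_mono (((i53 hρ h0).const_mul _).sub ((i53 hσ h1).const_mul _)) (a1.sub a2) (fun x => ?_)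
    have := sc2 (h1 x) (h0 x)
    show 3/5 * ρ x ^ (5/3 : ℝ) - 3/5 * σ x ^ (5/3 : ℝ) ≤ ρ x * ρ x ^ (2/3 : ℝ) - σ x * ρ x ^ (2/3 : ℝ)
    linarith
  have hB : 0 ≤ (∫ x, ρ x * pot ρ x) + 2 * (-1) * (∫ x, σ x * pot ρ x) + (-1) ^ 2 * ∫ x, σ x * pot σ x := by
    rw [← (kop_full hρ).exp hρ hσ (-1)]
    exact pot_pos (nice_add hρ (nice_smul hσ (-1)))
  rw [e]
  unfold AE
  linarith

lemma ae_ne0 : ∀ᵐ x : E3, x ≠ 0 := by
  rw [ae_iff]; simp

/-- the confined atom has almost minimal energy -/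
theorem FP.lower {n L : ℝ} {τ : E3 → ℝ} (h : FP n L τ) (hL : 0 < L) (hn : 0 < n) {σ : E3 → ℝ} (hσ : Nice σ)
    (h1 : ∀ x, 0 ≤ σ x) (hm : ∫ x, σ x = n) : AE n τ ≤ AE n σ + n ^ 2 / L := by
  have hR := h.rd hL
  have hc := conv_ineq n h.1 hσ h.nonneg h1
  have hT0 : 0 ≤ ∫ x, τ x := integral_nonneg h.nonneg
  have : ∫ x, (τ x - σ x) * (τ x ^ (2/3 : ℝ) - n / ‖x‖ + pot τ x) ≤ ∫ x, σ x * (n / L) := by
    refine integral_mono_ae (DE_int n h.1 hσ h.nonneg h1) (hσ.2.1.mul_const _) ?_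
    filter_upwards [ae_ne0] with x hx
    have hxp : 0 < ‖x‖ := norm_pos_iff.2 hx
    have hs := h1 x
    rcases le_or_gt L ‖x‖ with h2 | h2
    · rw [hR.out x h2, hR.pot_out h2, Real.zero_rpow (by norm_num)]
      have h3 : n / ‖x‖ ≤ n / L := div_le_div_of_nonneg_left hn.le hL h2
      have h4 : 0 ≤ (∫ x, τ x) / ‖x‖ := div_nonneg hT0 hxp.le
      have h5 : σ x * (n / ‖x‖) ≤ σ x * (n / L) := mul_le_mul_of_nonneg_left h3 hs
      have h6 : 0 ≤ σ x * ((∫ x, τ x) / ‖x‖) := mul_nonneg hs h4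
      linarith
    · have h3 : τ x ^ (2/3 : ℝ) = n / ‖x‖ - pot τ x := by
        rw [h.el h2, be_pow, max_eq_left (h.phi_nn hL hn hx)]
      rw [h3]
      have : (τ x - σ x) * (n / ‖x‖ - pot τ x - n / ‖x‖ + pot τ x) = 0 := by ring
      rw [this]
      positivity
  rw [integral_mul_const, hm] at this
  have e : n * (n / L) = n ^ 2 / L := by ring
  linarith

/-! ### filling up the charge -/

noncomputable def fill (a c : ℝ) (τ : E3 → ℝ) (x : E3) : ℝ := (ball (0:E3) a).indicator (fun x => τ x + c) x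

lemma one_nice (a : ℝ) : Nice ((ball (0:E3) a).indicator (fun _ => (1:ℝ))) := by
  have hi : Integrable ((ball (0:E3) a).indicator (fun _ => (1:ℝ))) := by
    rw [integrable_indicator_iff measurableSet_ball, integrableOn_const_iff]
    right; exact measure_ball_lt_top
  refine ⟨measurable_const.indicator measurableSet_ball, hi, hi.congr (Eventually.of_forall fun x => ?_)⟩
  by_cases hx : x ∈ ball (0:E3) a
  · simp only [indicator_of_mem hx, abs_one, Real.one_rpow]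
  · simp only [indicator_of_notMem hx, abs_zero]; rw [Real.zero_rpow (by norm_num)]

lemma nice_ind' {a : E3 → ℝ} (ha : Nice a) {A : Set E3} (hA : MeasurableSet A) : Nice (A.indicator a) := by
  refine ⟨ha.1.indicator hA, ha.2.1.indicator hA, ?_⟩
  refine (ha.2.2.indicator hA).congr (Eventually.of_forall fun x => ?_)
  by_cases hx : x ∈ A
  · simp only [indicator_of_mem hx]
  · simp only [indicator_of_notMem hx, abs_zero]; rw [Real.zero_rpow (by norm_num)]

lemma fill_eq (a c : ℝ) (τ : E3 → ℝ) :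
    fill a c τ = fun x => (ball (0:E3) a).indicator τ x + c * (ball (0:E3) a).indicator (fun _ => (1:ℝ)) x := by
  funext x
  unfold fill
  by_cases hx : x ∈ ball (0:E3) a
  · simp only [indicator_of_mem hx]; ring
  · simp only [indicator_of_notMem hx]; ring

lemma fill_nice {a c : ℝ} {τ : E3 → ℝ} (h : Nice τ) : Nice (fill a c τ) := by
  rw [fill_eq]
  exact nice_add (nice_ind' h measurableSet_ball) (nice_smul (one_nice a) c)

lemma fill_rd {L a c : ℝ} {τ : E3 → ℝ} (h : Rd L τ) (ha : 0 < a) (hc : 0 ≤ c) : Rd a (fill a c τ) where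
  nice := fill_nice h.nice
  nn := fun x => by
    unfold fill; exact indicator_nonneg (fun y _ => add_nonneg (h.nn y) hc) x
  out := fun x hx => by
    unfold fill; rw [indicator_of_notMem (by simpa using hx)]
  rad := fun x y hxy => by
    unfold fill
    have hb : x ∈ ball (0:E3) a ↔ y ∈ ball (0:E3) a := by rw [mem_ball_zero_iff, mem_ball_zero_iff, hxy]
    by_cases hx : x ∈ ball (0:E3) a
    · rw [indicator_of_mem hx, indicator_of_mem (hb.1 hx), h.rad x y hxy]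
    · rw [indicator_of_notMem hx, indicator_of_notMem (fun h => hx (hb.2 h))]
  pos := ha

lemma fill_tot {a c : ℝ} {τ : E3 → ℝ} (h : Nice τ) (ha : 0 ≤ a) :
    ∫ x, fill a c τ x = Q τ a + c * (4/3 * Real.pi * a ^ 3) := by
  rw [fill_eq, integral_add ((nice_ind' h measurableSet_ball).2.1) ((nice_smul (one_nice a) c).2.1), ← Q_ind,
    integral_const_mul, integral_indicator measurableSet_ball, setIntegral_const, smul_eq_mul, Measure.real,
    vol_ball a ha]
  ring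

lemma pot_one (a : ℝ) (ha : 0 < a) (y : E3) :
    pot ((ball (0:E3) a).indicator (fun _ => (1:ℝ))) y ≤ 2 * Real.pi * a ^ 2 := by
  have e : pot ((ball (0:E3) a).indicator (fun _ => (1:ℝ))) y = Ph a ‖y‖ := by
    rw [← (ball_pot y a ha).2, ← integral_indicator measurableSet_ball]
    unfold pot
    congr 1
    funext x
    by_cases hx : x ∈ ball (0:E3) a
    · rw [indicator_of_mem hx, indicator_of_mem hx, norm_sub_rev]
    · rw [indicator_of_notMem hx, indicator_of_notMem hx, zero_div]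
  rw [e]
  unfold Ph
  have hpi := Real.pi_pos
  split_ifs with h
  · have : 0 ≤ Real.pi * ‖y‖ ^ 2 := by positivity
    nlinarith
  · push Not at h
    rw [div_le_iff₀ (ha.trans h)]
    have h1 : Real.pi * a ^ 2 * a ≤ Real.pi * a ^ 2 * ‖y‖ := mul_le_mul_of_nonneg_left h.le (by positivity)
    have h2 : 0 ≤ Real.pi * a ^ 2 * a := by positivity
    nlinarith

/-- cost of cutting and refilling -/
theorem FP.upper {n L : ℝ} {τ : E3 → ℝ} (h : FP n L τ) (hL : 0 < L) (hn : 0 < n) {a : ℝ} (ha : 0 < a) (haL : a ≤ L)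
    {c : ℝ} (hc : c = (n - Q τ a) / (4/3 * Real.pi * a ^ 3)) :
    AE n (fill a c τ) ≤ AE n τ + (n - Q τ a) * (c ^ (2/3 : ℝ) + c * (2 * Real.pi * a ^ 2)) := by
  have hR := h.rd hL
  have hpi := Real.pi_pos
  have hv : 0 < 4/3 * Real.pi * a ^ 3 := by positivity
  have hm0 : 0 ≤ n - Q τ a := by
    have := Q_le h.1.2.1 h.nonneg a; have := h.charge hL hn; linarith
  have hc0 : 0 ≤ c := by rw [hc]; positivity
  have hF := fill_rd hR ha hc0
  have hcv : c * (4/3 * Real.pi * a ^ 3) = n - Q τ a := by rw [hc]; field_simp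
  have htot : ∫ x, fill a c τ x = n := by rw [fill_tot h.1 ha.le, hcv]; ring
  have hci := conv_ineq n hF.nice h.1 hF.nn h.nonneg
  set K : ℝ := c ^ (2/3 : ℝ) + c * (2 * Real.pi * a ^ 2) with hK
  have hK0 : 0 ≤ K := by rw [hK]; positivity
  have hle : ∫ x, (fill a c τ x - τ x) * (fill a c τ x ^ (2/3 : ℝ) - n / ‖x‖ + pot (fill a c τ) x) ≤
      ∫ x, (c * K) * (ball (0:E3) a).indicator (fun _ => (1:ℝ)) x := by
    refine integral_mono_ae (DE_int n hF.nice h.1 hF.nn h.nonneg) ((one_nice a).2.1.const_mul _) ?_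
    filter_upwards [ae_ne0] with x hx
    have hxp : 0 < ‖x‖ := norm_pos_iff.2 hx
    by_cases hb : x ∈ ball (0:E3) a
    · have hbn : ‖x‖ < a := by simpa using hb
      rw [indicator_of_mem hb, mul_one]
      have e1 : fill a c τ x = τ x + c := by unfold fill; rw [indicator_of_mem hb]
      have h3 : τ x ^ (2/3 : ℝ) = n / ‖x‖ - pot τ x := by
        rw [h.el (hbn.trans_le haL), be_pow, max_eq_left (h.phi_nn hL hn hx)]
      have h4 : (τ x + c) ^ (2/3 : ℝ) ≤ τ x ^ (2/3 : ℝ) + c ^ (2/3 : ℝ) :=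
        Real.rpow_add_le_add_rpow (h.nonneg x) hc0 (by norm_num) (by norm_num)
      have h5 : pot (fill a c τ) x ≤ pot τ x + c * (2 * Real.pi * a ^ 2) := by
        have h6 : pot (fill a c τ) x ≤ pot (fun y => τ y + c * (ball (0:E3) a).indicator (fun _ => (1:ℝ)) y) x := by
          refine pot_mono hF.nice (nice_add h.1 (nice_smul (one_nice a) c)) (fun y => ?_) x
          rw [fill_eq]
          have : (ball (0:E3) a).indicator τ y ≤ τ y := indicator_le_self' (fun y _ => h.nonneg y) y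
          linarith
        rw [pot_lin h.1 (one_nice a) c x] at h6
        have := mul_le_mul_of_nonneg_left (pot_one a ha x) hc0
        linarith
      rw [e1, add_sub_cancel_left]
      refine mul_le_mul_of_nonneg_left ?_ hc0
      rw [hK]
      linarith
    · have hbn : a ≤ ‖x‖ := by simpa using hb
      rw [indicator_of_notMem hb, mul_zero, hF.out x hbn, hF.pot_out hbn, htot, Real.zero_rpow (by norm_num)]
      apply le_of_eq
      ring
  have e2 : ∫ x, (c * K) * (ball (0:E3) a).indicator (fun _ => (1:ℝ)) x = (n - Q τ a) * K := by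
    rw [integral_const_mul, integral_indicator measurableSet_ball, setIntegral_const, smul_eq_mul, Measure.real,
      vol_ball a ha.le, mul_one, ← hcv]
    ring
  rw [e2] at hle
  linarith

end Pool.Agent.X91.SA
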