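import Pool.Agent.X91.SA.Mol
import Pool.Agent.X91.SA.Def

/-!
# `e - e~` is not superadditive
-/

set_option autoImplicit false

open MeasureTheory Set Filter Topology Metric
open scoped RealInnerProductSpace

namespace Pool.Agent.X91.SA

open Pool.Agent.Helper557.TFP (E3 Nice pot nice_bound TF_E1_dbl en_bdd en_nonempty)
open Pool.Agent.H9R2.TF (nice_add nice_smul)

lemma Dens.nice {ρ : E3 → ℝ} (h : Dens ρ) : Nice ρ := by
  refine ⟨h.1, h.2.2.1, ?_⟩
  simpa only [abs_of_nonneg (h.2.1 _)] using h.2.2.2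

lemma dens_of {ρ : E3 → ℝ} (h : Nice ρ) (h0 : ∀ x, 0 ≤ ρ x) : Dens ρ := ⟨h.1, h0, h.2.1, i53 h h0⟩

lemma vals_bdd {k : ℕ} (z : Fin k → ℝ) (hz : ∀ i, 0 ≤ z i) (R : Fin k → E3) : BddBelow (Vals z R) :=
  en_bdd z hz R _

lemma vals_nonempty {k : ℕ} (z : Fin k → ℝ) (hz : ∀ i, 0 ≤ z i) (R : Fin k → E3) : (Vals z R).Nonempty :=
  en_nonempty z R _ (Finset.sum_nonneg fun i _ => hz i)

/-- charge `N` at the two nuclei `i`, `j` -/
noncomputable def w {k : ℕ} (i j : Fin k) (N : ℝ) : Fin k → ℝ := fun l => if l = i ∨ l = j then N else 0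

lemma sum_two {k : ℕ} {i j : Fin k} (hij : i ≠ j) (g : Fin k → ℝ) :
    ∑ l, (if l = i ∨ l = j then g l else 0) = g i + g j := by
  have : ∀ l, (if l = i ∨ l = j then g l else 0) = (if l = i then g l else 0) + (if l = j then g l else 0) := by
    intro l
    by_cases h1 : l = i
    · have h2 : l ≠ j := fun h => hij (h1 ▸ h)
      simp [h1, hij]
    · by_cases h2 : l = j
      · simp [h2, hij.symm]
      · simp [h1, h2]
  simp only [this, Finset.sum_add_distrib, Finset.sum_ite_eq', Finset.mem_univ, if_true]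

lemma w_sum {k : ℕ} {i j : Fin k} (hij : i ≠ j) (N : ℝ) : ∑ l, w i j N l = 2 * N := by
  unfold w
  rw [sum_two hij (fun _ => N)]; ring

lemma w_V {k : ℕ} {i j : Fin k} (hij : i ≠ j) (N : ℝ) (R : Fin k → E3) (x : E3) :
    ∑ l, w i j N l / ‖x - R l‖ = N / ‖x - R i‖ + N / ‖x - R j‖ := by
  rw [← sum_two hij (fun l => N / ‖x - R l‖)]
  refine Finset.sum_congr rfl (fun l _ => ?_)
  unfold w
  split_ifs
  · rfl
  · rw [zero_div]

lemma w_U {k : ℕ} {i j : Fin k} (hij : i < j) (N : ℝ) (R : Fin k → E3) :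
    ∑ p, ∑ q ∈ Finset.Ioi p, w i j N p * w i j N q / ‖R p - R q‖ = N * N / ‖R i - R j‖ := by
  rw [Finset.sum_eq_single i]
  · rw [Finset.sum_eq_single j]
    · unfold w; simp
    · intro q hq hqj
      have : q ≠ i := (Finset.mem_Ioi.1 hq).ne'
      unfold w
      rw [if_neg (show ¬ (q = i ∨ q = j) by rintro (h | h); exacts [this h, hqj h])]
      simp
    · intro h
      exact absurd (Finset.mem_Ioi.2 hij) h
  · intro p _ hpi
    refine Finset.sum_eq_zero (fun q hq => ?_)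
    have hpq : p < q := Finset.mem_Ioi.1 hq
    by_cases hpj : p = j
    · have h1 : q ≠ j := fun h => absurd hpq (by rw [h, hpj]; exact lt_irrefl _)
      have h2 : q ≠ i := fun h => absurd hpq (by rw [h, hpj]; exact not_lt_of_gt hij)
      unfold w
      rw [if_neg (show ¬ (q = i ∨ q = j) by rintro (h | h); exacts [h2 h, h1 h])]
      simp
    · unfold w
      rw [if_neg (show ¬ (p = i ∨ p = j) by rintro (h | h); exacts [hpi h, hpj h])]
      simp
  · intro h; exact absurd (Finset.mem_univ i) h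

lemma TFE_w {k : ℕ} {i j : Fin k} (hij : i < j) (N : ℝ) (R : Fin k → E3) (ρ : E3 → ℝ) :
    TFE (w i j N) R ρ = 3/5 * (∫ x, ρ x ^ (5/3 : ℝ)) - (∫ x, (N / ‖x - R i‖ + N / ‖x - R j‖) * ρ x)
      + 1/2 * (∫ x, ρ x * pot ρ x) + N * N / ‖R i - R j‖ := by
  unfold TFE
  rw [w_U hij, TF_E1_dbl]
  simp only [w_V hij.ne]

lemma TFE_at (z : ℝ) (ρ : E3 → ℝ) : TFE (fun _ : Fin 1 => z) (fun _ => 0) ρ = AE z ρ := by
  unfold TFE AE
  rw [TF_E1_dbl]
  have h1 : ∑ i : Fin 1, ∑ j ∈ Finset.Ioi i, z * z / ‖(0:E3) - 0‖ = 0 := by simp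
  have h2 : ∀ x : E3, (∑ _j : Fin 1, z / ‖x - 0‖) = z / ‖x‖ := by intro x; simp
  simp only [h2]
  have h3 : (∑ i : Fin 1, ∑ j ∈ Finset.Ioi i, z * z / ‖(0:R3) - 0‖) = 0 := by simp
  rw [h3]
  ring

lemma enAt_zero : enAt 0 = 0 := by
  unfold enAt en
  have : Vals (fun _ : Fin 1 => (0:ℝ)) (fun _ => 0) = {0} := by
    ext E
    constructor
    · rintro ⟨ρ, hρ, hm, hE⟩
      rw [TFE_at] at hE
      have hm' : ∫ x, ρ x = 0 := by simpa using hm
      have h1 := (integral_eq_zero_iff_of_nonneg hρ.2.1 hρ.2.2.1).1 hm'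
      have e1 : ∫ x, ρ x ^ (5/3 : ℝ) = 0 := by
        rw [integral_eq_zero_of_ae]
        filter_upwards [h1] with x hx
        have hx' : ρ x = 0 := hx
        rw [hx', Real.zero_rpow (by norm_num)]; rfl
      have e2 : ∫ x, (0:ℝ) / ‖x‖ * ρ x = 0 := by simp
      have e3 : ∫ x, ρ x * pot ρ x = 0 := by
        rw [integral_eq_zero_of_ae]
        filter_upwards [h1] with x hx
        have hx' : ρ x = 0 := hx
        rw [hx', zero_mul]; rfl
      unfold AE at hE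
      rw [e1, e2, e3] at hE
      rw [mem_singleton_iff, ← hE]; ring
    · intro hE
      rw [mem_singleton_iff] at hE
      have hd : Dens (fun _ : E3 => (0:ℝ)) := by
        refine ⟨measurable_const, fun _ => le_rfl, integrable_zero _ _ _, ?_⟩
        show Integrable (fun _ : E3 => (0:ℝ) ^ (5/3 : ℝ))
        rw [Real.zero_rpow (by norm_num)]
        exact integrable_zero _ _ _
      refine ⟨fun _ => 0, hd, by simp, ?_⟩
      rw [TFE_at, hE]
      unfold AE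
      beta_reduce
      rw [Real.zero_rpow (by norm_num)]
      simp
  rw [this, csInf_singleton]

lemma enAt_nonpos {t : ℝ} (ht : 0 < t) : enAt t ≤ 0 := by
  obtain ⟨ρ, h1, h2, h3, h4⟩ := exists_nonpos ht
  refine le_trans (csInf_le (vals_bdd _ (fun _ => ht.le) _) ⟨ρ, dens_of h1 h2, ?_, TFE_at t ρ⟩) h4
  rw [h3]; simp

/-- sublinear upper bound of `e - e~` along the diagonal -/
theorem mol_up {k : ℕ} {i j : Fin k} (hij : i < j) (R : Fin k → E3) (hR : R i ≠ R j) :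
    ∃ C : ℝ, 0 ≤ C ∧ ∀ N : ℝ, 1 ≤ N → en (w i j N) R - 2 * enAt N ≤ C * N ^ (8/9 : ℝ) + 2 := by
  have hpi := Real.pi_pos
  have hd : 0 < ‖R i - R j‖ := norm_pos_iff.2 (sub_ne_zero.2 hR)
  obtain ⟨a, ha⟩ : ∃ a, a = ‖R i - R j‖ / 2 := ⟨_, rfl⟩
  have ha0 : 0 < a := by rw [ha]; positivity
  obtain ⟨K, hK⟩ : ∃ K, K = 16 * (64 / a) ^ (2/3 : ℝ) / a := ⟨_, rfl⟩
  have hK0 : 0 ≤ K := by rw [hK]; positivity
  obtain ⟨v, hv⟩ : ∃ v, v = 4/3 * Real.pi * a ^ 3 := ⟨_, rfl⟩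
  have hv0 : 0 < v := by rw [hv]; positivity
  obtain ⟨c1, hc1⟩ : ∃ c1, c1 = K / v := ⟨_, rfl⟩
  have hc10 : 0 ≤ c1 := by rw [hc1]; positivity
  refine ⟨2 * (K * (c1 ^ (2/3 : ℝ) + c1 * (2 * Real.pi * a ^ 2))), by positivity, fun N hN => ?_⟩
  have hN0 : 0 < N := by linarith
  obtain ⟨L, hL⟩ : ∃ L, L = N ^ 2 + a := ⟨_, rfl⟩
  have hL0 : 0 < L := by rw [hL]; positivity
  have haL : a ≤ L := by rw [hL]; nlinarith [sq_nonneg N]
  obtain ⟨τ, hτ⟩ := exists_FP hN0.le L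
  have htail := hτ.tail hL0 hN0 ha0 haL
  rw [← hK] at htail
  obtain ⟨m, hm⟩ : ∃ m, m = N - Q τ a := ⟨_, rfl⟩
  have hm0 : 0 ≤ m := by
    have := Q_le hτ.1.2.1 hτ.nonneg a; have := hτ.charge hL0 hN0; rw [hm]; linarith
  obtain ⟨c, hc⟩ : ∃ c, c = m / v := ⟨_, rfl⟩
  have hc0 : 0 ≤ c := by rw [hc]; positivity
  have hup := hτ.upper hL0 hN0 ha0 haL (c := c) (by rw [hc, hm, hv])
  rw [← hm] at hup htail
  obtain ⟨T, hT⟩ : ∃ T, T = N ^ (4/9 : ℝ) := ⟨_, rfl⟩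
  have hT1 : 1 ≤ T := by rw [hT]; exact Real.one_le_rpow hN (by norm_num)
  have hTT : T * T = N ^ (8/9 : ℝ) := by
    rw [hT, ← Real.rpow_add hN0]; norm_num
  rw [← hT] at htail
  have hcle : c ≤ c1 * T := by
    rw [hc, hc1, div_mul_eq_mul_div]; exact div_le_div_of_nonneg_right htail hv0.le
  have hc23 : c ^ (2/3 : ℝ) ≤ c1 ^ (2/3 : ℝ) * T := by
    refine (Real.rpow_le_rpow hc0 hcle (by norm_num)).trans ?_
    rw [Real.mul_rpow hc10 (by linarith)]
    refine mul_le_mul_of_nonneg_left ?_ (by positivity)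
    have := Real.rpow_le_rpow_of_exponent_le hT1 (show (2/3 : ℝ) ≤ 1 by norm_num)
    rwa [Real.rpow_one] at this
  have hcost : m * (c ^ (2/3 : ℝ) + c * (2 * Real.pi * a ^ 2)) ≤
      K * (c1 ^ (2/3 : ℝ) + c1 * (2 * Real.pi * a ^ 2)) * N ^ (8/9 : ℝ) := by
    have h1 : c ^ (2/3 : ℝ) + c * (2 * Real.pi * a ^ 2) ≤ (c1 ^ (2/3 : ℝ) + c1 * (2 * Real.pi * a ^ 2)) * T := by
      have := mul_le_mul_of_nonneg_right hcle (show 0 ≤ 2 * Real.pi * a ^ 2 by positivity)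
      linarith
    have h2 : m * (c ^ (2/3 : ℝ) + c * (2 * Real.pi * a ^ 2)) ≤
        (K * T) * ((c1 ^ (2/3 : ℝ) + c1 * (2 * Real.pi * a ^ 2)) * T) :=
      mul_le_mul htail h1 (by positivity) (by positivity)
    rw [← hTT]
    linarith
  -- trial function
  have hRd : Rd a (fill a c τ) := fill_rd (hτ.rd hL0) ha0 hc0
  have htot : ∫ x, fill a c τ x = N := by
    rw [fill_tot hτ.1 ha0.le, ← hv, hc, div_mul_cancel₀ _ hv0.ne', hm]; ring
  have hen : en (w i j N) R ≤ 2 * AE N (fill a c τ) := by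
    have hE := two_centre hRd htot (p := R i) (q := R j) (by rw [ha]; linarith)
    have nt : Nice (fun x => fill a c τ (x - R i) + fill a c τ (x - R j)) :=
      nice_add (nice_tr hRd.nice _) (nice_tr hRd.nice _)
    refine csInf_le (vals_bdd _ ?_ _) ⟨fun x => fill a c τ (x - R i) + fill a c τ (x - R j), dens_of nt ?_, ?_, ?_⟩
    · intro l; unfold w; split_ifs
      · exact hN0.le
      · exact le_rfl
    · intro x; exact add_nonneg (hRd.nn _) (hRd.nn _)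
    · rw [w_sum hij.ne, integral_add (hRd.nice.2.1.comp_sub_right _) (hRd.nice.2.1.comp_sub_right _),
        integral_sub_right_eq_self (fun x => fill a c τ x) (R i), integral_sub_right_eq_self (fun x => fill a c τ x) (R j),
        htot]
      ring
    · rw [TFE_w hij]; exact hE
  have hat : AE N τ - N ^ 2 / L ≤ enAt N := by
    refine le_csInf (vals_nonempty _ (fun _ => hN0.le) _) ?_
    rintro E ⟨ρ, hρ, hmρ, rfl⟩
    rw [TFE_at]
    have hmρ' : ∫ x, ρ x = N := by rw [hmρ]; simp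
    have := hτ.lower hL0 hN0 hρ.nice hρ.2.1 hmρ'
    linarith
  have hNL : N ^ 2 / L ≤ 1 := by
    rw [div_le_one hL0, hL]; linarith
  have : K * (c1 ^ (2/3 : ℝ) + c1 * (2 * Real.pi * a ^ 2)) * N ^ (8/9 : ℝ) * 2 =
    2 * (K * (c1 ^ (2/3 : ℝ) + c1 * (2 * Real.pi * a ^ 2))) * N ^ (8/9 : ℝ) := by ring
  linarith

/-- positivity of `e - e~` for small charges -/
theorem mol_pos {k : ℕ} {i j : Fin k} (hij : i < j) (R : Fin k → E3) (hR : R i ≠ R j) :
    ∃ t : ℝ, 0 < t ∧ 0 < en (w i j t) R - 2 * enAt t := by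
  have hd : 0 < ‖R i - R j‖ := norm_pos_iff.2 (sub_ne_zero.2 hR)
  obtain ⟨d, hdd⟩ : ∃ d, d = ‖R i - R j‖ := ⟨_, rfl⟩
  rw [← hdd] at hd
  obtain ⟨B, hB⟩ : ∃ B, B = 2/5 * (2:ℝ) ^ (5/2 : ℝ) * I52v (8 * d) := ⟨_, rfl⟩
  have hB0 : 0 ≤ B := by rw [hB]; have := I52v_nonneg (8 * d); positivity
  obtain ⟨u, hu⟩ : ∃ u, u = 1 / (4 * d * (B + 1)) := ⟨_, rfl⟩
  have hu0 : 0 < u := by rw [hu]; positivity
  refine ⟨u ^ 2, by positivity, ?_⟩
  have ht0 : 0 < u ^ 2 := by positivity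
  have hat := enAt_nonpos ht0
  have hlow : (u ^ 2) * (u ^ 2) / d - B * u ^ 5 - 4 * (u ^ 2) ^ 2 / (8 * d) ≤ en (w i j (u ^ 2)) R := by
    refine le_csInf (vals_nonempty _ ?_ _) ?_
    · intro l; unfold w; split_ifs
      · exact ht0.le
      · exact le_rfl
    rintro E ⟨ρ, hρ, hmρ, rfl⟩
    rw [w_sum hij.ne] at hmρ
    have := two_low ht0.le (R i) (R j) hρ.nice hρ.2.1 (show 0 < 8 * d by positivity) hmρ
    rw [TFE_w hij, ← hdd]
    have e : 2/5 * (2 * u ^ 2) ^ (5/2 : ℝ) * I52v (8 * d) = B * u ^ 5 := by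
      rw [Real.mul_rpow (by norm_num) (by positivity), hB, ← Real.rpow_natCast u 2, ← Real.rpow_mul hu0.le,
        ← Real.rpow_natCast u 5]
      norm_num
      ring
    rw [e] at this
    linarith
  have h1 : B * u ^ 5 < u ^ 4 / (2 * d) := by
    have h2 : B * u < 1 / (2 * d) := by
      have h3 : (B + 1) * u = 1 / (4 * d) := by rw [hu]; field_simp
      have h4 : 1 / (4 * d) < 1 / (2 * d) := one_div_lt_one_div_of_lt (by positivity) (by linarith)
      nlinarith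
    have h5 : 0 < u ^ 4 := by positivity
    have h6 := mul_lt_mul_of_pos_left h2 h5
    have e1 : u ^ 4 * (B * u) = B * u ^ 5 := by ring
    have e2 : u ^ 4 * (1 / (2 * d)) = u ^ 4 / (2 * d) := by ring
    rwa [e1, e2] at h6
  have e3 : (u ^ 2) * (u ^ 2) / d - 4 * (u ^ 2) ^ 2 / (8 * d) = u ^ 4 / (2 * d) := by
    field_simp; ring
  linarith

lemma enSum_w {k : ℕ} {i j : Fin k} (hij : i < j) (N : ℝ) : enSum (w i j N) = 2 * enAt N := by
  unfold enSum
  have : ∀ l, enAt (w i j N l) = if l = i ∨ l = j then enAt N else 0 := by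
    intro l
    unfold w
    split_ifs
    · rfl
    · exact enAt_zero
  simp only [this]
  rw [sum_two hij.ne (fun _ => enAt N)]; ring

theorem main {k : ℕ} (hk : 2 ≤ k) (R : Fin k → E3) (hR : Function.Injective R) :
    ¬ SuperAdd (fun z => en z R - enSum z) := by
  intro hSA
  set i : Fin k := ⟨0, by omega⟩ with hi
  set j : Fin k := ⟨1, by omega⟩ with hj
  have hij : i < j := by rw [hi, hj, Fin.mk_lt_mk]; omega
  have hRij : R i ≠ R j := fun h => hij.ne (hR h)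
  obtain ⟨t, ht, hpos⟩ := mol_pos hij R hRij
  obtain ⟨C, hC0, hC⟩ := mol_up hij R hRij
  set F : ℝ → ℝ := fun N => en (w i j N) R - 2 * enAt N with hF
  have hwn : ∀ N : ℝ, 0 ≤ N → ∀ l, 0 ≤ w i j N l := by
    intro N hN l; unfold w; split_ifs
    · exact hN
    · exact le_rfl
  have hadd : ∀ A B : ℝ, 0 ≤ A → 0 ≤ B → F A + F B ≤ F (A + B) := by
    intro A B hA hB
    have h1 := hSA (w i j A) (w i j B) (hwn A hA) (hwn B hB)
    have h2 : w i j A + w i j B = w i j (A + B) := by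
      funext l
      show w i j A l + w i j B l = w i j (A + B) l
      unfold w
      split_ifs <;> ring
    simp only [h2, enSum_w hij] at h1
    exact h1
  have hlin : ∀ n : ℕ, ((n:ℝ) + 1) * F t ≤ F (((n:ℝ) + 1) * t) := by
    intro n
    induction n with
    | zero => simp
    | succ n ih =>
      have h1 := hadd (((n:ℝ) + 1) * t) t (by positivity) ht.le
      have e : ((n:ℝ) + 1) * t + t = (((n + 1 : ℕ):ℝ) + 1) * t := by push_cast; ring
      rw [e] at h1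
      push_cast at h1 ⊢
      linarith
  have hFt : 0 < F t := hpos
  -- contradiction
  have hlim := tendsto_rpow_atTop (show (0:ℝ) < 1/9 by norm_num)
  have hlim2 : Tendsto (fun n : ℕ => ((n:ℝ) + 1) ^ (1/9 : ℝ)) atTop atTop :=
    hlim.comp (tendsto_atTop_add_const_right _ _ tendsto_natCast_atTop_atTop)
  have hlim3 : Tendsto (fun n : ℕ => ((n:ℝ) + 1) * t) atTop atTop :=
    (tendsto_atTop_add_const_right _ _ tendsto_natCast_atTop_atTop).atTop_mul_const ht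
  obtain ⟨n, hn1, hn2⟩ := ((hlim2.eventually_gt_atTop ((C * t ^ (8/9 : ℝ) + 2) / F t)).and
    (hlim3.eventually_ge_atTop 1)).exists
  have h1 := (hlin n).trans (hC _ hn2)
  have hx : 1 ≤ (n:ℝ) + 1 := by have : (0:ℝ) ≤ n := Nat.cast_nonneg n; linarith
  have hx0 : (0:ℝ) < (n:ℝ) + 1 := by linarith
  rw [Real.mul_rpow hx0.le ht.le] at h1
  have h89 : 1 ≤ ((n:ℝ) + 1) ^ (8/9 : ℝ) := Real.one_le_rpow hx (by norm_num)
  have hsplit : (n:ℝ) + 1 = ((n:ℝ) + 1) ^ (1/9 : ℝ) * ((n:ℝ) + 1) ^ (8/9 : ℝ) := by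
    rw [← Real.rpow_add hx0]; norm_num
  rw [div_lt_iff₀ hFt] at hn1
  set X := ((n:ℝ) + 1) ^ (1/9 : ℝ)
  set Y := ((n:ℝ) + 1) ^ (8/9 : ℝ)
  have h2 : (C * t ^ (8/9 : ℝ) + 2) * Y < X * F t * Y := mul_lt_mul_of_pos_right hn1 (by linarith)
  have h3 : ((n:ℝ) + 1) * F t = X * F t * Y := by rw [hsplit]; ring
  rw [h3] at h1
  have h4 : C * (Y * t ^ (8/9 : ℝ)) + 2 ≤ (C * t ^ (8/9 : ℝ) + 2) * Y := by nlinarith
  linarith

end Pool.Agent.X91.SA
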