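import Pool.Agent.X91.SA.En

/-!
# Two nuclei: trial density and lower bound
-/

set_option autoImplicit false

open MeasureTheory Set Filter Topology Metric
open scoped RealInnerProductSpace

namespace Pool.Agent.X91.SA

open Pool.Agent.Helper557.TFP
open Pool.Agent.H9R2.TF (nice_add nice_smul pot_mono pot_add)

lemma nice_tr {f : E3 → ℝ} (hf : Nice f) (p : E3) : Nice (fun x => f (x - p)) :=
  ⟨hf.1.comp (measurable_id.sub_const p), hf.2.1.comp_sub_right p, hf.2.2.comp_sub_right p⟩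

lemma pot_tr (f : E3 → ℝ) (p x : E3) : pot (fun y => f (y - p)) x = pot f (x - p) := by
  unfold pot
  rw [← integral_sub_right_eq_self (fun y => f y / ‖x - p - y‖) p]
  congr 1
  funext y
  rw [show x - p - (y - p) = x - y by abel]

lemma cross_V (N : ℝ) (f : E3 → ℝ) (p q : E3) :
    ∫ x, N / ‖x - p‖ * f (x - q) = N * pot f (p - q) := by
  unfold pot
  rw [← integral_const_mul, ← integral_sub_right_eq_self (fun y => N * (f y / ‖p - q - y‖)) q]
  congr 1
  funext x
  rw [show p - q - (x - q) = p - x by abel, norm_sub_rev p x]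
  ring

/-- energy of the two-centre trial density -/
theorem two_centre {a N : ℝ} {σ : E3 → ℝ} (h : Rd a σ) (hN : ∫ x, σ x = N) {p q : E3} (hd : 2 * a ≤ ‖p - q‖) :
    3/5 * (∫ x, (σ (x - p) + σ (x - q)) ^ (5/3 : ℝ))
      - (∫ x, (N / ‖x - p‖ + N / ‖x - q‖) * (σ (x - p) + σ (x - q)))
      + 1/2 * (∫ x, (σ (x - p) + σ (x - q)) * pot (fun y => σ (y - p) + σ (y - q)) x) + N * N / ‖p - q‖
      = 2 * AE N σ := by
  have ha := h.pos
  have hp := nice_tr h.nice p
  have hq := nice_tr h.nice q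
  have hd' : 2 * a ≤ ‖q - p‖ := by rwa [norm_sub_rev]
  -- separation
  have sep : ∀ x, ‖x - p‖ < a → a ≤ ‖x - q‖ := by
    intro x hx
    have : ‖p - q‖ ≤ ‖x - q‖ + ‖x - p‖ := by
      have : p - q = (x - q) - (x - p) := by abel
      rw [this]; exact norm_sub_le _ _
    linarith
  have sep' : ∀ x, ‖x - q‖ < a → a ≤ ‖x - p‖ := by
    intro x hx
    by_contra hcon
    push Not at hcon
    have := sep x hcon
    linarith
  have e1 : ∫ x, (σ (x - p) + σ (x - q)) ^ (5/3 : ℝ) = 2 * ∫ x, σ x ^ (5/3 : ℝ) := by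
    have : ∀ x, (σ (x - p) + σ (x - q)) ^ (5/3 : ℝ) = σ (x - p) ^ (5/3 : ℝ) + σ (x - q) ^ (5/3 : ℝ) := by
      intro x
      rcases lt_or_ge ‖x - p‖ a with h1 | h1
      · rw [h.out _ (sep x h1), add_zero, Real.zero_rpow (by norm_num), add_zero]
      · rw [h.out _ h1, zero_add, Real.zero_rpow (by norm_num), zero_add]
    simp only [this]
    have i0 := i53 h.nice h.nn
    rw [integral_add (i0.comp_sub_right p) (i0.comp_sub_right q),
      integral_sub_right_eq_self (fun x => σ x ^ (5/3 : ℝ)) p, integral_sub_right_eq_self (fun x => σ x ^ (5/3 : ℝ)) q]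
    ring
  have Npos : ‖p - q‖ ≠ 0 := by linarith
  have pqout : pot σ (p - q) = N / ‖p - q‖ := by rw [h.pot_out (by linarith), hN]
  have qpout : pot σ (q - p) = N / ‖p - q‖ := by rw [h.pot_out (by linarith), hN, norm_sub_rev]
  have e2 : ∫ x, (N / ‖x - p‖ + N / ‖x - q‖) * (σ (x - p) + σ (x - q)) =
      2 * (∫ x, N / ‖x‖ * σ x) + 2 * (N * N / ‖p - q‖) := by
    have s1 : ∀ x, (N / ‖x - p‖ + N / ‖x - q‖) * (σ (x - p) + σ (x - q)) =
        (N / ‖x - p‖ * σ (x - p) + N / ‖x - p‖ * σ (x - q)) +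
        (N / ‖x - q‖ * σ (x - p) + N / ‖x - q‖ * σ (x - q)) := by intro x; ring
    simp only [s1]
    have ipp := coul_int N p hp
    have ipq := coul_int N p hq
    have iqp := coul_int N q hp
    have iqq := coul_int N q hq
    have j1 : Integrable (fun x => N / ‖x - p‖ * σ (x - p) + N / ‖x - p‖ * σ (x - q)) := ipp.add ipq
    have j2 : Integrable (fun x => N / ‖x - q‖ * σ (x - p) + N / ‖x - q‖ * σ (x - q)) := iqp.add iqq
    rw [integral_add j1 j2, integral_add ipp ipq, integral_add iqp iqq,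
      cross_V N σ p q, cross_V N σ q p, pqout, qpout,
      integral_sub_right_eq_self (fun x => N / ‖x‖ * σ x) p, integral_sub_right_eq_self (fun x => N / ‖x‖ * σ x) q]
    ring
  have e3 : ∫ x, (σ (x - p) + σ (x - q)) * pot (fun y => σ (y - p) + σ (y - q)) x =
      2 * (∫ x, σ x * pot σ x) + 2 * (N * N / ‖p - q‖) := by
    have s1 : ∀ x, (σ (x - p) + σ (x - q)) * pot (fun y => σ (y - p) + σ (y - q)) x =
        (σ (x - p) * pot σ (x - p) + N / ‖x - q‖ * σ (x - p)) +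
        (N / ‖x - p‖ * σ (x - q) + σ (x - q) * pot σ (x - q)) := by
      intro x
      rw [pot_add hp hq, pot_tr, pot_tr]
      have t1 : σ (x - p) * pot σ (x - q) = N / ‖x - q‖ * σ (x - p) := by
        rcases lt_or_ge ‖x - p‖ a with h1 | h1
        · rw [h.pot_out (sep x h1), hN, mul_comm]
        · rw [h.out _ h1]; ring
      have t2 : σ (x - q) * pot σ (x - p) = N / ‖x - p‖ * σ (x - q) := by
        rcases lt_or_ge ‖x - q‖ a with h1 | h1
        · rw [h.pot_out (sep' x h1), hN, mul_comm]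
        · rw [h.out _ h1]; ring
      rw [← t1, ← t2]; ring
    simp only [s1]
    have iqp := coul_int N q hp
    have ipq := coul_int N p hq
    have i0 : Integrable (fun x => σ x * pot σ x) := TF_E1_int σ σ h.nice.2.1 h.nice
    have ip : Integrable (fun x => σ (x - p) * pot σ (x - p)) := i0.comp_sub_right p
    have iq : Integrable (fun x => σ (x - q) * pot σ (x - q)) := i0.comp_sub_right q
    have j1 : Integrable (fun x => σ (x - p) * pot σ (x - p) + N / ‖x - q‖ * σ (x - p)) := ip.add iqp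
    have j2 : Integrable (fun x => N / ‖x - p‖ * σ (x - q) + σ (x - q) * pot σ (x - q)) := ipq.add iq
    rw [integral_add j1 j2, integral_add ip iqp, integral_add ipq iq,
      cross_V N σ p q, cross_V N σ q p, pqout, qpout,
      integral_sub_right_eq_self (fun x => σ x * pot σ x) p, integral_sub_right_eq_self (fun x => σ x * pot σ x) q]
    ring
  rw [e1, e2, e3]
  unfold AE
  ring

/-! ### lower bound with one centre -/

noncomputable def I52v (r : ℝ) : ℝ := ∫ x, (ball (0:E3) r).indicator (fun x => (1 / ‖x‖) ^ (5/2 : ℝ)) x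

lemma I52v_nonneg (r : ℝ) : 0 ≤ I52v r := by
  unfold I52v
  exact integral_nonneg (fun x => indicator_nonneg (fun y _ => by positivity) x)

lemma young_pt {s u : ℝ} (hs : 0 ≤ s) (hu : 0 ≤ u) : s * u ≤ 3/5 * u ^ (5/3 : ℝ) + 2/5 * s ^ (5/2 : ℝ) := by
  have hpq : (5/3 : ℝ).HolderConjugate (5/2) := by
    rw [Real.holderConjugate_iff]; norm_num
  have h := Real.young_inequality_of_nonneg hu hs hpq
  have e : u ^ (5/3 : ℝ) / (5/3) + s ^ (5/2 : ℝ) / (5/2) = 3/5 * u ^ (5/3 : ℝ) + 2/5 * s ^ (5/2 : ℝ) := by ring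
  rw [e, mul_comm] at h
  exact h

theorem at_low {s : ℝ} (hs : 0 ≤ s) (p : E3) {ρ : E3 → ℝ} (hρ : Nice ρ) (h0 : ∀ x, 0 ≤ ρ x) {r : ℝ} (hr : 0 < r) :
    -(2/5 * s ^ (5/2 : ℝ) * I52v r) - s / r * (∫ x, ρ x) ≤
      3/5 * (∫ x, ρ x ^ (5/3 : ℝ)) - ∫ x, s / ‖x - p‖ * ρ x := by
  have hi1 := J52 zero_le_one r
  have hi2 : Integrable (fun x => (ball (0:E3) r).indicator (fun x => (1 / ‖x‖) ^ (5/2 : ℝ)) (x - p)) :=
    hi1.comp_sub_right p
  have hv : ∫ x, (ball (0:E3) r).indicator (fun x => (1 / ‖x‖) ^ (5/2 : ℝ)) (x - p) = I52v r := by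
    unfold I52v
    exact integral_sub_right_eq_self (fun x => (ball (0:E3) r).indicator (fun x => (1 / ‖x‖) ^ (5/2 : ℝ)) x) p
  have hc := coul_int s p hρ
  have key : ∫ x, s / ‖x - p‖ * ρ x ≤
      ∫ x, (3/5 * ρ x ^ (5/3 : ℝ) + 2/5 * s ^ (5/2 : ℝ) * (ball (0:E3) r).indicator (fun x => (1 / ‖x‖) ^ (5/2 : ℝ)) (x - p)
        + s / r * ρ x) := by
    refine integral_mono hc ((((i53 hρ h0).const_mul _).add (hi2.const_mul _)).add (hρ.2.1.const_mul _)) (fun x => ?_)
    show s / ‖x - p‖ * ρ x ≤ 3/5 * ρ x ^ (5/3 : ℝ) +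
      2/5 * s ^ (5/2 : ℝ) * (ball (0:E3) r).indicator (fun x => (1 / ‖x‖) ^ (5/2 : ℝ)) (x - p) + s / r * ρ x
    have hx0 := h0 x
    by_cases hb : x - p ∈ ball (0:E3) r
    · rw [indicator_of_mem hb]
      have h1 := young_pt (show 0 ≤ s / ‖x - p‖ by positivity) hx0
      have h2 : (s / ‖x - p‖) ^ (5/2 : ℝ) = s ^ (5/2 : ℝ) * (1 / ‖x - p‖) ^ (5/2 : ℝ) := by
        rw [← Real.mul_rpow hs (by positivity)]; congr 1; ring
      rw [h2] at h1
      have : 0 ≤ s / r * ρ x := by positivity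
      linarith
    · rw [indicator_of_notMem hb, mul_zero, add_zero]
      have hb' : r ≤ ‖x - p‖ := by simpa using hb
      have h1 : s / ‖x - p‖ ≤ s / r := div_le_div_of_nonneg_left hs hr hb'
      have h2 := mul_le_mul_of_nonneg_right h1 hx0
      have : 0 ≤ 3/5 * ρ x ^ (5/3 : ℝ) := by positivity
      linarith
  have j1 : Integrable (fun x => 3/5 * ρ x ^ (5/3 : ℝ) +
      2/5 * s ^ (5/2 : ℝ) * (ball (0:E3) r).indicator (fun x => (1 / ‖x‖) ^ (5/2 : ℝ)) (x - p)) :=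
    ((i53 hρ h0).const_mul _).add (hi2.const_mul _)
  rw [integral_add j1 (hρ.2.1.const_mul _), integral_add ((i53 hρ h0).const_mul _) (hi2.const_mul _),
    integral_const_mul, integral_const_mul, integral_const_mul, hv] at key
  linarith

/-- lower bound of the two-centre functional at small charge -/
theorem two_low {t : ℝ} (ht : 0 ≤ t) (p q : E3) {ρ : E3 → ℝ} (hρ : Nice ρ) (h0 : ∀ x, 0 ≤ ρ x) {r : ℝ} (hr : 0 < r)
    (hm : ∫ x, ρ x = 2 * t) :
    -(2/5 * (2 * t) ^ (5/2 : ℝ) * I52v r) - 4 * t ^ 2 / r ≤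
      3/5 * (∫ x, ρ x ^ (5/3 : ℝ)) - (∫ x, (t / ‖x - p‖ + t / ‖x - q‖) * ρ x) + 1/2 * ∫ x, ρ x * pot ρ x := by
  have h1 := at_low (show 0 ≤ 2 * t by positivity) p hρ h0 hr
  have h2 := at_low (show 0 ≤ 2 * t by positivity) q hρ h0 hr
  have e : ∫ x, (t / ‖x - p‖ + t / ‖x - q‖) * ρ x =
      1/2 * (∫ x, 2 * t / ‖x - p‖ * ρ x) + 1/2 * ∫ x, 2 * t / ‖x - q‖ * ρ x := by
    rw [← integral_const_mul, ← integral_const_mul,
      ← integral_add ((coul_int (2 * t) p hρ).const_mul _) ((coul_int (2 * t) q hρ).const_mul _)]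
    congr 1
    funext x
    ring
  have h3 : 0 ≤ ∫ x, ρ x * pot ρ x := integral_nonneg (fun x => mul_nonneg (h0 x) (pot_nn h0 x))
  rw [hm] at h1 h2
  rw [e]
  have e2 : 2 * t / r * (2 * t) = 4 * t ^ 2 / r := by ring
  rw [e2] at h1 h2
  linarith

/-- the atomic energy can be made nonpositive -/
theorem exists_nonpos {t : ℝ} (ht : 0 < t) : ∃ ρ : E3 → ℝ, Nice ρ ∧ (∀ x, 0 ≤ ρ x) ∧ (∫ x, ρ x = t) ∧ AE t ρ ≤ 0 := by
  have hpi := Real.pi_gt_three
  set s : ℝ := 2 * t ^ (-(1/3) : ℝ) with hs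
  have hs0 : 0 < s := by rw [hs]; positivity
  set v : ℝ := 4/3 * Real.pi * s ^ 3 with hv
  have hv0 : 0 < v := by rw [hv]; positivity
  set c : ℝ := t / v with hc
  have hc0 : 0 ≤ c := by rw [hc]; positivity
  set ρ : E3 → ℝ := fill s c (fun _ => 0) with hρ
  have nz : Nice (fun _ : E3 => (0:ℝ)) := by
    refine ⟨measurable_const, integrable_zero _ _ _, ?_⟩
    simp only [abs_zero]
    rw [Real.zero_rpow (by norm_num)]
    exact integrable_zero _ _ _
  have hR : Rd s (fun _ : E3 => (0:ℝ)) := ⟨nz, fun _ => le_rfl, fun _ _ => rfl, fun _ _ _ => rfl, hs0⟩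
  have hF : Rd s ρ := fill_rd hR hs0 hc0
  have htot : ∫ x, ρ x = t := by
    rw [hρ, fill_tot nz hs0.le]
    have : Q (fun _ : E3 => (0:ℝ)) s = 0 := by unfold Q; simp
    rw [this, ← hv, hc, zero_add, div_mul_cancel₀ _ hv0.ne']
  refine ⟨ρ, hF.nice, hF.nn, htot, ?_⟩
  have e1 : ∫ x, ρ x ^ (5/3 : ℝ) = c ^ (2/3 : ℝ) * t := by
    have : ∀ x, ρ x ^ (5/3 : ℝ) = c ^ (2/3 : ℝ) * ρ x := by
      intro x
      have hx : ρ x = 0 ∨ ρ x = c := by
        rw [hρ]; unfold fill
        by_cases hb : x ∈ ball (0:E3) s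
        · right; rw [indicator_of_mem hb, zero_add]
        · left; rw [indicator_of_notMem hb]
      rw [← mul23 (hF.nn x)]
      rcases hx with h1 | h1
      · rw [h1]; ring
      · rw [h1]; ring
    simp only [this]
    rw [integral_const_mul, htot]
  have hcx := coul_int0 t hF.nice
  have e2 : ∫ x, ρ x * pot ρ x ≤ ∫ x, t / ‖x‖ * ρ x := by
    refine integral_mono_ae (TF_E1_int ρ ρ hF.nice.2.1 hF.nice) hcx ?_
    filter_upwards [ae_ne0] with x hx
    have h1 := hF.pot_le hx hs0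
    rw [hF.tot le_rfl, sub_self, zero_div, add_zero, htot] at h1
    have := mul_le_mul_of_nonneg_left h1 (hF.nn x)
    linarith
  have e3 : t / s * t ≤ ∫ x, t / ‖x‖ * ρ x := by
    have : ∫ x, t / s * ρ x ≤ ∫ x, t / ‖x‖ * ρ x := by
      refine integral_mono_ae (hF.nice.2.1.const_mul _) hcx ?_
      filter_upwards [ae_ne0] with x hx
      rcases le_or_gt s ‖x‖ with h1 | h1
      · rw [hF.out x h1, mul_zero, mul_zero]
      · have hxp : 0 < ‖x‖ := norm_pos_iff.2 hx
        exact mul_le_mul_of_nonneg_right (div_le_div_of_nonneg_left ht.le hxp h1.le) (hF.nn x)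
    rwa [integral_const_mul, htot] at this
  have e4 : c ^ (2/3 : ℝ) ≤ t ^ (2/3 : ℝ) / s ^ 2 := by
    have h1 : c ≤ t / s ^ 3 := by
      rw [hc]
      apply div_le_div_of_nonneg_left ht.le (by positivity)
      rw [hv]
      have : 0 < s ^ 3 := by positivity
      nlinarith
    refine (Real.rpow_le_rpow hc0 h1 (by norm_num)).trans (le_of_eq ?_)
    rw [Real.div_rpow ht.le (by positivity), ← Real.rpow_natCast s 3, ← Real.rpow_mul hs0.le]
    norm_num
  have e5 : t ^ (2/3 : ℝ) / s ^ 2 = 1/2 * (t / s) := by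
    have h1 : t ^ (2/3 : ℝ) = t * t ^ (-(1/3) : ℝ) := by
      nth_rewrite 2 [← Real.rpow_one t]
      rw [← Real.rpow_add ht]; norm_num
    have h2 : t ^ (-(1/3) : ℝ) = s / 2 := by rw [hs]; ring
    rw [h1, h2]
    field_simp
  unfold AE
  rw [e1]
  have h6 : c ^ (2/3 : ℝ) * t ≤ 1/2 * (t / s) * t := by
    rw [← e5]; exact mul_le_mul_of_nonneg_right e4 ht.le
  have h7 : 0 ≤ t / s * t := by positivity
  nlinarith

end Pool.Agent.X91.SA
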