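import Pool.Agent.X91.TW.Rad

/-!
# Newton's theorem for measurable radial densities in a ball
-/

set_option autoImplicit false

open MeasureTheory Set Filter Topology Metric
open scoped RealInnerProductSpace

namespace Pool.Agent.X91.SA

open Pool.Agent.Helper557.TFP (E3 Nice pot)
open Pool.Agent.X91.TW (Ph ball_pot rad_int)

lemma max_int (s ρ : ℝ) (hs : 0 < s) (hρ : 0 ≤ ρ) :
    ∫ x in ball (0:E3) s, 1 / max ‖x‖ ρ = Ph s ρ := by
  rw [← integral_indicator measurableSet_ball]
  have h1 : ∀ x : E3, (ball (0:E3) s).indicator (fun x => 1 / max ‖x‖ ρ) x =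
      (fun r : ℝ => (Iio s).indicator (fun r => 1 / max r ρ) r) ‖x‖ := by
    intro x
    simp only [indicator, mem_ball_zero_iff, mem_Iio]
  simp only [h1]
  rw [rad_int]
  have h2 : ∫ r in Ioi (0:ℝ), r ^ 2 * (Iio s).indicator (fun r => 1 / max r ρ) r =
      ∫ r in (0:ℝ)..s, r ^ 2 * (1 / max r ρ) := by
    rw [intervalIntegral.integral_of_le hs.le, ← integral_indicator measurableSet_Ioi,
      ← integral_indicator measurableSet_Ioc]
    apply integral_congr_ae
    have : ∀ᵐ r : ℝ, r ≠ s := by
      rw [ae_iff]; simp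
    filter_upwards [this] with r hr
    simp only [indicator, mem_Ioi, mem_Ioc, mem_Iio]
    by_cases h0 : 0 < r
    · by_cases h3 : r < s
      · simp [h0, h3, h3.le]
      · have h4 : ¬ r ≤ s := fun h => h3 (lt_of_le_of_ne h hr)
        simp [h0, h3, h4]
    · simp [h0]
  rw [h2]
  unfold Ph
  have hcont : ∀ a b : ℝ, 0 < a → 0 < b → IntervalIntegrable (fun r : ℝ => r ^ 2 * (1 / max r ρ)) volume a b := by
    intro a b ha hb
    apply ContinuousOn.intervalIntegrable
    have : ∀ x ∈ uIcc a b, max x ρ ≠ 0 := by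
      intro x hx
      have h3 : 0 < x := lt_of_lt_of_le (lt_min ha hb) hx.1
      exact ne_of_gt (lt_of_lt_of_le h3 (le_max_left _ _))
    exact (continuousOn_id.pow 2).mul (continuousOn_const.div (continuous_id.max continuous_const).continuousOn this)
  split_ifs with h
  · rcases eq_or_lt_of_le hρ with h0 | h0
    · have : ∫ r in (0:ℝ)..s, r ^ 2 * (1 / max r ρ) = ∫ r in (0:ℝ)..s, r := by
        apply intervalIntegral.integral_congr_ae
        refine Eventually.of_forall (fun r hr => ?_)
        rw [uIoc_of_le hs.le] at hr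
        rw [← h0, max_eq_left hr.1.le]
        have := hr.1.ne'
        field_simp
      rw [this, integral_id, ← h0]
      ring
    · have e1 : ∫ r in (0:ℝ)..ρ, r ^ 2 * (1 / max r ρ) = ∫ r in (0:ℝ)..ρ, r ^ 2 * (1 / ρ) := by
        apply intervalIntegral.integral_congr
        intro r hr
        rw [uIcc_of_le hρ] at hr
        show r ^ 2 * (1 / max r ρ) = _
        rw [max_eq_right hr.2]
      have e2 : ∫ r in ρ..s, r ^ 2 * (1 / max r ρ) = ∫ r in ρ..s, r := by
        apply intervalIntegral.integral_congr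
        intro r hr
        rw [uIcc_of_le h] at hr
        show r ^ 2 * (1 / max r ρ) = _
        rw [max_eq_left hr.1]
        have : r ≠ 0 := (lt_of_lt_of_le h0 hr.1).ne'
        field_simp
      have i1 : IntervalIntegrable (fun r : ℝ => r ^ 2 * (1 / max r ρ)) volume 0 ρ := by
        apply ContinuousOn.intervalIntegrable
        have : ∀ x ∈ uIcc 0 ρ, max x ρ ≠ 0 := by
          intro x _
          exact ne_of_gt (lt_of_lt_of_le h0 (le_max_right _ _))
        exact (continuousOn_id.pow 2).mul (continuousOn_const.div (continuous_id.max continuous_const).continuousOn this)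
      rw [← intervalIntegral.integral_add_adjacent_intervals i1 (hcont ρ s h0 hs), e1, e2, integral_id,
        intervalIntegral.integral_mul_const, integral_pow]
      field_simp
      ring
  · push Not at h
    have e1 : ∫ r in (0:ℝ)..s, r ^ 2 * (1 / max r ρ) = ∫ r in (0:ℝ)..s, r ^ 2 * (1 / ρ) := by
      apply intervalIntegral.integral_congr
      intro r hr
      rw [uIcc_of_le hs.le] at hr
      show r ^ 2 * (1 / max r ρ) = _
      rw [max_eq_right (hr.2.trans h.le)]
    rw [e1, intervalIntegral.integral_mul_const, integral_pow]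
    field_simp
    ring

lemma max_intble (s ρ : ℝ) (hρ : 0 < ρ) :
    IntegrableOn (fun x : E3 => 1 / max ‖x‖ ρ) (ball 0 s) := by
  have : Continuous (fun x : E3 => 1 / max ‖x‖ ρ) :=
    continuous_const.div (continuous_norm.max continuous_const)
      (fun x => ne_of_gt (lt_of_lt_of_le hρ (le_max_right _ _)))
  exact (this.continuousOn.integrableOn_compact (isCompact_closedBall 0 s)).mono_set ball_subset_closedBall

lemma cap_ae (a L : ℝ) : (closedBall (0:E3) a ∩ ball 0 L : Set E3) =ᵐ[volume] ball 0 (min a L) := by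
  have h0 : volume (sphere (0:E3) a) = 0 := Measure.addHaar_sphere _ _ _
  have h1 : ∀ᵐ x : E3, x ∉ sphere (0:E3) a := by
    exact measure_eq_zero_iff_ae_notMem.1 h0
  filter_upwards [h1] with x hx
  apply propext
  show x ∈ closedBall (0:E3) a ∩ ball 0 L ↔ x ∈ ball (0:E3) (min a L)
  rw [mem_inter_iff, mem_closedBall_zero_iff, mem_ball_zero_iff, mem_ball_zero_iff, lt_min_iff]
  rw [mem_sphere_zero_iff_norm] at hx
  constructor
  · rintro ⟨h2, h3⟩; exact ⟨lt_of_le_of_ne h2 hx, h3⟩
  · rintro ⟨h2, h3⟩; exact ⟨h2.le, h3⟩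

lemma lint_cap (g : E3 → ℝ) (hg0 : ∀ x, 0 ≤ g x) (hi : ∀ s, 0 < s → IntegrableOn g (ball 0 s)) (a L : ℝ) :
    ∫⁻ x in closedBall (0:E3) a ∩ ball 0 L, ENNReal.ofReal (g x) =
      ENNReal.ofReal (∫ x in ball (0:E3) (min a L), g x) := by
  rw [setLIntegral_congr (cap_ae a L)]
  rcases le_or_gt (min a L) 0 with h | h
  · rw [ball_eq_empty.2 h]; simp
  · rw [ofReal_integral_eq_lintegral_ofReal (hi _ h) (Eventually.of_forall hg0)]

lemma meas_eq (g g' : E3 → ℝ) (hg0 : ∀ x, 0 ≤ g x) (hg0' : ∀ x, 0 ≤ g' x) (hm : Measurable g) (hm' : Measurable g')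
    (hi : ∀ s, 0 < s → IntegrableOn g (ball 0 s)) (hi' : ∀ s, 0 < s → IntegrableOn g' (ball 0 s))
    (he : ∀ s, 0 < s → ∫ x in ball (0:E3) s, g x = ∫ x in ball (0:E3) s, g' x) {L : ℝ} (hL : 0 < L) :
    Measure.map (fun x : E3 => ‖x‖) ((volume.restrict (ball 0 L)).withDensity (fun x => ENNReal.ofReal (g x))) =
    Measure.map (fun x : E3 => ‖x‖) ((volume.restrict (ball 0 L)).withDensity (fun x => ENNReal.ofReal (g' x))) := by
  have hfin : IsFiniteMeasure ((volume.restrict (ball (0:E3) L)).withDensity (fun x => ENNReal.ofReal (g x))) := by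
    refine isFiniteMeasure_withDensity ?_
    rw [← ofReal_integral_eq_lintegral_ofReal (hi _ hL) (Eventually.of_forall hg0)]
    exact ENNReal.ofReal_ne_top
  have : IsFiniteMeasure (Measure.map (fun x : E3 => ‖x‖)
      ((volume.restrict (ball 0 L)).withDensity (fun x => ENNReal.ofReal (g x)))) := by
    exact Measure.isFiniteMeasure_map _ _
  refine Measure.ext_of_Iic _ _ (fun a => ?_)
  have hpre : (fun x : E3 => ‖x‖) ⁻¹' (Iic a) = closedBall 0 a := by
    ext x; simp
  rw [Measure.map_apply measurable_norm measurableSet_Iic, Measure.map_apply measurable_norm measurableSet_Iic, hpre,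
    withDensity_apply _ measurableSet_closedBall, withDensity_apply _ measurableSet_closedBall,
    Measure.restrict_restrict measurableSet_closedBall, lint_cap g hg0 hi, lint_cap g' hg0' hi']
  rcases le_or_gt (min a L) 0 with h | h
  · rw [ball_eq_empty.2 h]; simp
  · rw [he _ h]

lemma int_conv (g : E3 → ℝ) (hg0 : ∀ x, 0 ≤ g x) (hm : Measurable g) (f : ℝ → ℝ) (hf : Measurable f) (L : ℝ) :
    ∫ x in ball (0:E3) L, f ‖x‖ * g x = ∫ r, f r ∂(Measure.map (fun x : E3 => ‖x‖)
      ((volume.restrict (ball 0 L)).withDensity (fun x => ENNReal.ofReal (g x)))) := by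
  rw [integral_map measurable_norm.aemeasurable hf.aestronglyMeasurable,
    integral_withDensity_eq_integral_toReal_smul hm.ennreal_ofReal (Eventually.of_forall (fun x => ENNReal.ofReal_lt_top))]
  congr 1
  funext x
  rw [ENNReal.toReal_ofReal (hg0 x), smul_eq_mul, mul_comm]

/-- Newton's theorem -/
theorem newt (f : ℝ → ℝ) (hf : Measurable f) {L : ℝ} (hL : 0 < L) {y : E3} (hy : y ≠ 0) :
    ∫ x in ball (0:E3) L, f ‖x‖ * (1 / ‖x - y‖) = ∫ x in ball (0:E3) L, f ‖x‖ * (1 / max ‖x‖ ‖y‖) := by
  have hy0 : 0 < ‖y‖ := norm_pos_iff.2 hy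
  have m1 : Measurable (fun x : E3 => 1 / ‖x - y‖) := measurable_const.div (measurable_id.sub measurable_const).norm
  have m2 : Measurable (fun x : E3 => 1 / max ‖x‖ ‖y‖) := measurable_const.div (measurable_norm.max measurable_const)
  rw [int_conv _ (fun x => by positivity) m1 f hf, int_conv _ (fun x => by positivity) m2 f hf]
  rw [meas_eq (fun x : E3 => 1 / ‖x - y‖) (fun x : E3 => 1 / max ‖x‖ ‖y‖) (fun x => by positivity)
    (fun x => by positivity) m1 m2 (fun s hs => (ball_pot y s hs).1) (fun s _ => max_intble s _ hy0)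
    (fun s hs => by rw [(ball_pot y s hs).2, max_int s _ hs hy0.le]) hL]

/-- potential of a radial density supported in a ball -/
theorem pot_rad {ρ : E3 → ℝ} (hm : Measurable ρ) (hr : ∀ x y : E3, ‖x‖ = ‖y‖ → ρ x = ρ y) {L : ℝ} (hL : 0 < L)
    (hs : ∀ x, L ≤ ‖x‖ → ρ x = 0) {y : E3} (hy : y ≠ 0) :
    pot ρ y = ∫ x, ρ x * (1 / max ‖x‖ ‖y‖) := by
  set f : ℝ → ℝ := fun r => ρ (EuclideanSpace.single 0 |r|) with hf
  have hfm : Measurable f := by
    refine hm.comp ?_
    have : Continuous (fun r : ℝ => (EuclideanSpace.single 0 |r| : E3)) := by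
      have : (fun r : ℝ => (EuclideanSpace.single 0 |r| : E3)) = fun r => |r| • (EuclideanSpace.single 0 1 : E3) := by
        funext r
        ext i
        simp [PiLp.single_apply]
      rw [this]
      exact continuous_abs.smul continuous_const
    exact this.measurable
  have hρ : ∀ x, ρ x = f ‖x‖ := by
    intro x
    rw [hf]
    apply hr
    rw [EuclideanSpace.norm_single]
    simp
  have key := newt f hfm hL hy
  have e1 : pot ρ y = ∫ x in ball (0:E3) L, f ‖x‖ * (1 / ‖x - y‖) := by
    unfold pot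
    rw [← integral_indicator measurableSet_ball]
    congr 1
    funext x
    by_cases hx : x ∈ ball (0:E3) L
    · rw [indicator_of_mem hx, ← hρ, norm_sub_rev]; ring
    · rw [indicator_of_notMem hx, hs x (by simpa using hx), zero_div]
  have e2 : ∫ x, ρ x * (1 / max ‖x‖ ‖y‖) = ∫ x in ball (0:E3) L, f ‖x‖ * (1 / max ‖x‖ ‖y‖) := by
    rw [← integral_indicator measurableSet_ball]
    congr 1
    funext x
    by_cases hx : x ∈ ball (0:E3) L
    · rw [indicator_of_mem hx, ← hρ]
    · rw [indicator_of_notMem hx, hs x (by simpa using hx), zero_mul]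
  rw [e1, e2, key]

end Pool.Agent.X91.SA
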